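import Pool.Agent.X176.VR.Glue

/-!
Construction of actions.
-/

set_option autoImplicit false

namespace Pool.Agent.X176.VR

open Subgroup

section trans

variable {P R : Type*} [Group P] [Group R] (i : R →* P) (M : Subgroup P) {D : Type*}
  (l : D → M →* Zm)

/-- the action of `R` and the integers -/
def act : R × Zm →* Equiv.Perm (ES M D l) :=
  (MulAction.toPermHom (P × Zm) (ES M D l)).comp (i.prodMap (MonoidHom.id Zm))

theorem act_apply (r : R) (c : Zm) (x : ES M D l) : act i M l (r, c) x = ((i r, c) : P × Zm) • x :=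
  rfl

/-- the set of double cosets -/
abbrev DC : Type _ := DoubleCoset.Quotient (i.range : Set P) (M : Set P)

/-- the double coset of an element -/
abbrev dc (p : P) : DC i M := DoubleCoset.mk i.range M p

theorem dc_eq (p p' : P) : dc i M p = dc i M p' ↔ ∃ r : R, ∃ n ∈ M, p' = i r * p * n := by
  refine (DoubleCoset.eq i.range M p p').trans ?_
  constructor
  · rintro ⟨_, ⟨r, rfl⟩, n, hn, h⟩
    exact ⟨r, n, hn, h⟩
  · rintro ⟨r, n, hn, h⟩
    exact ⟨_, ⟨r, rfl⟩, n, hn, h⟩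

theorem dc_out (q : DC i M) : dc i M q.out = q := DoubleCoset.out_eq' _ _ q

theorem dc_finite (hM : M.FiniteIndex) : Finite (DC i M) := by
  have : Finite (P ⧸ M) := Subgroup.finite_quotient_of_finiteIndex
  refine Finite.of_surjective (fun q : P ⧸ M => dc i M q.out) ?_
  intro q
  obtain ⟨p, rfl⟩ : ∃ p, dc i M p = q := ⟨_, dc_out i M q⟩
  refine ⟨(p : P ⧸ M), ?_⟩
  have h1 : ((((p : P) : P ⧸ M).out : P) : P ⧸ M) = (p : P ⧸ M) := Quotient.out_eq' _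
  have h2 := QuotientGroup.eq.1 h1
  refine (dc_eq i M _ _).2 ⟨1, _, h2, ?_⟩
  rw [map_one, one_mul, mul_inv_cancel_left]

variable {I : Type*} (σ : I ≃ DC i M × D) (t : I → P) (κ : I → Zm)
  (ht : ∀ a, dc i M (t a) = (σ a).1)

include ht in
theorem tr1 (x : ES M D l) : ∃ a h, act i M l h (pt l (σ a).2 (t a, κ a)) = x := by
  obtain ⟨d, p, k, rfl⟩ := exists_pt x
  obtain ⟨a, ha⟩ := σ.surjective (dc i M p, d)
  obtain rfl : (σ a).2 = d := by rw [ha]
  have h1 : dc i M (t a) = dc i M p := by rw [ht, ha]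
  obtain ⟨r, n, hn, hp⟩ := (dc_eq i M _ _).1 h1
  refine ⟨a, (r, k * (l (σ a).2 ⟨n, hn⟩)⁻¹ * (κ a)⁻¹), ?_⟩
  rw [act_apply, smul_pt, pt_eq, mem_Gam]
  have h2 : ((((i r, k * (l (σ a).2 ⟨n, hn⟩)⁻¹ * (κ a)⁻¹) : P × Zm) * (t a, κ a))⁻¹ *
      (p, k)).1 = n := by
    show (i r * t a)⁻¹ * p = n
    rw [hp]; group
  have h3 : ((((i r, k * (l (σ a).2 ⟨n, hn⟩)⁻¹ * (κ a)⁻¹) : P × Zm) * (t a, κ a))⁻¹ *
      (p, k)).1 ∈ M := by rw [h2]; exact hn
  refine ⟨h3, ?_⟩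
  have h4 : (⟨_, h3⟩ : M) = ⟨n, hn⟩ := Subtype.ext h2
  rw [h4]
  show l (σ a).2 ⟨n, hn⟩ = (k * (l (σ a).2 ⟨n, hn⟩)⁻¹ * (κ a)⁻¹ * κ a)⁻¹ * k
  rw [inv_mul_cancel_right, mul_inv_rev, inv_inv, mul_assoc, inv_mul_cancel, mul_one]

include ht in
theorem tr2 (a b : I) (h : R × Zm)
    (hab : act i M l h (pt l (σ a).2 (t a, κ a)) = pt l (σ b).2 (t b, κ b)) : a = b := by
  obtain ⟨r, c⟩ := h
  rw [act_apply, smul_pt] at hab
  obtain ⟨h1, h2⟩ := pt_eq' _ _ _ _ hab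
  apply σ.injective
  refine Prod.ext ?_ h1
  rw [← ht, ← ht]
  refine (dc_eq i M _ _).2 ⟨r, _, h2, ?_⟩
  show t b = i r * t a * ((i r * t a)⁻¹ * t b)
  rw [mul_inv_cancel_left]

theorem tr3 (d : D) (p : P) (k : Zm) (r : R) (c : Zm) :
    act i M l (r, c) (pt l d (p, k)) = pt l d (p, k) ↔ (p⁻¹ * i r * p, c) ∈ Gam M (l d) := by
  rw [act_apply, smul_pt, pt_eq, ← inv_mem_iff]
  have h1 : (((((i r, c) : P × Zm) * (p, k))⁻¹ * (p, k))⁻¹ : P × Zm) = (p⁻¹ * i r * p, c) := by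
    refine Prod.ext ?_ ?_
    · show ((i r * p)⁻¹ * p)⁻¹ = _
      group
    · show ((c * k)⁻¹ * k)⁻¹ = c
      rw [mul_inv_rev, inv_inv, mul_comm, mul_assoc, mul_inv_cancel, mul_one]
  rw [h1]

end trans

section main

variable {P Q R : Type*} [Group P] [Group Q] [Group R] (i : R →* P) (j : R →* Q)
  (M : Subgroup P) (N : Subgroup Q) {D D' : Type*} (l : D → M →* Zm) (l' : D' → N →* Zm)

theorem exists_act {I : Type*} (σ : I ≃ DC i M × D) (t : I → P)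
    (κ : I → Zm) (ht : ∀ a, dc i M (t a) = (σ a).1) (σ' : I ≃ DC j N × D') (t' : I → Q)
    (κ' : I → Zm) (ht' : ∀ a, dc j N (t' a) = (σ' a).1)
    (hs : ∀ a r c, ((t a)⁻¹ * i r * t a, c) ∈ Gam M (l (σ a).2) ↔
      ((t' a)⁻¹ * j r * t' a, c) ∈ Gam N (l' (σ' a).2)) :
    ∃ (Θ : Am i j →* Equiv.Perm (ES M D l)) (F : ES M D l ≃ ES N D' l'),
      (∀ p x, Θ (aL i j p) x = ((p, 1) : P × Zm) • x) ∧
      (∀ q x, F (Θ (aR i j q) x) = ((q, 1) : Q × Zm) • F x) ∧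
      (∀ g (c : Zm) x, Θ g (((1, c) : P × Zm) • x) = ((1, c) : P × Zm) • Θ g x) ∧
      (∀ (c : Zm) x, F (((1, c) : P × Zm) • x) = ((1, c) : Q × Zm) • F x) ∧
      ∀ a, F (pt l (σ a).2 (t a, κ a)) = pt l' (σ' a).2 (t' a, κ' a) := by
  obtain ⟨F, hF, hFe⟩ := iso (act i M l) (act j N l')
    (fun a => pt l (σ a).2 (t a, κ a)) (fun a => pt l' (σ' a).2 (t' a, κ' a))
    (tr1 i M l σ t κ ht) (tr2 i M l σ t κ ht) (tr1 j N l' σ' t' κ' ht')
    (tr2 j N l' σ' t' κ' ht') (by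
      rintro a ⟨r, c⟩
      rw [tr3, tr3]
      exact hs a r c)
  have hF1 : ∀ (r : R) (c : Zm) x, F (((i r, c) : P × Zm) • x) = ((j r, c) : Q × Zm) • F x :=
    fun r c x => hF (r, c) x
  have hFc : ∀ (c : Zm) x, F (((1, c) : P × Zm) • x) = ((1, c) : Q × Zm) • F x := by
    intro c x
    have h1 := hF1 1 c x
    rwa [map_one, map_one] at h1
  obtain ⟨Θ, hΘL, hΘR⟩ := am_lift i j
    ((MulAction.toPermHom (P × Zm) (ES M D l)).comp (MonoidHom.inl P Zm))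
    ((Equiv.permCongrHom F.symm).toMonoidHom.comp
      ((MulAction.toPermHom (Q × Zm) (ES N D' l')).comp (MonoidHom.inl Q Zm))) (by
      intro r
      apply Equiv.ext
      intro x
      show ((i r, 1) : P × Zm) • x = F.symm (((j r, 1) : Q × Zm) • F x)
      rw [← hF1, F.symm_apply_apply])
  have hL : ∀ p x, Θ (aL i j p) x = ((p, 1) : P × Zm) • x := by
    intro p x
    rw [hΘL]; rfl
  have hR : ∀ q x, F (Θ (aR i j q) x) = ((q, 1) : Q × Zm) • F x := by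
    intro q x
    rw [hΘR]
    show F (F.symm (((q, 1) : Q × Zm) • F x)) = _
    rw [F.apply_symm_apply]
  refine ⟨Θ, F, hL, hR, ?_, hFc, hFe⟩
  intro g
  induction g using am_induction with
  | hL p =>
    intro c x
    rw [hL, hL, smul_smul, smul_smul]
    congr 1
    exact Prod.ext (by show p * 1 = 1 * p; rw [mul_one, one_mul]) (mul_comm _ _)
  | hR q =>
    intro c x
    apply F.injective
    rw [hR, hFc, hFc, hR, smul_smul, smul_smul]
    congr 1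
    exact Prod.ext (by show q * 1 = 1 * q; rw [mul_one, one_mul]) (mul_comm _ _)
  | hm a b ha hb =>
    intro c x
    rw [map_mul, Equiv.Perm.mul_apply, Equiv.Perm.mul_apply, hb, ha]

end main

end Pool.Agent.X176.VR
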