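import Pool.Agent.X176.VR.Def

/-!
Detecting virtual retracts by integer valued homomorphisms.
-/

set_option autoImplicit false

namespace Pool.Agent.X176.VR

open Subgroup

/-- the integers, written multiplicatively -/
abbrev Zm : Type := Multiplicative ℤ

variable {G : Type*} [Group G]

theorem finiteIndex_map_subtype (K : Subgroup G) (hK : K.FiniteIndex) (L : Subgroup K)
    (hL : L.FiniteIndex) : (L.map K.subtype).FiniteIndex := by
  refine ⟨?_⟩
  rw [index_map_subtype]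
  exact mul_ne_zero hL.index_ne_zero hK.index_ne_zero

theorem finiteIndex_comap {A B : Type*} [Group A] [Group B] (f : A →* B) (N : Subgroup B)
    (hN : N.FiniteIndex) : (N.comap f).FiniteIndex := by
  refine ⟨?_⟩
  rw [index_comap]
  exact (inferInstance : (N.subgroupOf f.range).FiniteIndex).index_ne_zero

/-- a homomorphism to the integers on a subgroup of finite index containing `g` -/
theorem vr_of_mem (g : G) (K : Subgroup G) (hK : K.FiniteIndex) (hg : g ∈ K) (h : K →* Zm)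
    (hne : h ⟨g, hg⟩ ≠ 1) : IsVirtualRetract (zpowers g) := by
  set c : ℤ := Multiplicative.toAdd (h ⟨g, hg⟩) with hc
  have hc0 : c ≠ 0 := fun h0 => hne (by
    rw [← ofAdd_toAdd (h ⟨g, hg⟩), ← hc, h0]; rfl)
  let f : K →* Multiplicative (ZMod c.natAbs) :=
    (AddMonoidHom.toMultiplicative (Int.castAddHom (ZMod c.natAbs))).comp h
  have hnz : NeZero c.natAbs := ⟨Int.natAbs_ne_zero.2 hc0⟩
  have hfin : f.ker.FiniteIndex := Subgroup.finiteIndex_ker f
  have hdvd : ∀ x : K, x ∈ f.ker ↔ c ∣ Multiplicative.toAdd (h x) := by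
    intro x
    rw [MonoidHom.mem_ker]
    show Multiplicative.ofAdd ((Multiplicative.toAdd (h x) : ℤ) : ZMod c.natAbs) = 1 ↔ _
    rw [ofAdd_eq_one, ZMod.intCast_zmod_eq_zero_iff_dvd, Int.natAbs_dvd]
  have hLK : ∀ x : (f.ker.map K.subtype : Subgroup G), (x : G) ∈ K := by
    rintro ⟨_, y, hy, rfl⟩
    exact y.2
  have hLd : ∀ x : (f.ker.map K.subtype : Subgroup G),
      c ∣ Multiplicative.toAdd (h ⟨x, hLK x⟩) := by
    rintro ⟨_, y, hy, rfl⟩
    exact (hdvd y).1 hy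
  refine ⟨f.ker.map K.subtype, finiteIndex_map_subtype K hK _ hfin, ?_, ?_⟩
  · rw [zpowers_le]
    exact ⟨⟨g, hg⟩, (hdvd _).2 (dvd_refl _), rfl⟩
  · refine ⟨MonoidHom.mk' (fun x => ⟨g ^ (Multiplicative.toAdd (h ⟨x, hLK x⟩) / c),
      ⟨_, rfl⟩⟩) ?_, ?_⟩
    · intro a b
      apply Subtype.ext
      show g ^ _ = g ^ _ * g ^ _
      rw [← zpow_add]
      congr 1
      have h1 : h ⟨((a * b : (f.ker.map K.subtype : Subgroup G)) : G), hLK (a * b)⟩ =
          h ⟨a, hLK a⟩ * h ⟨b, hLK b⟩ := by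
        rw [← map_mul]; rfl
      rw [h1, toAdd_mul, Int.add_ediv_of_dvd_left (hLd a)]
    · rintro x ⟨k, hk⟩
      apply Subtype.ext
      show g ^ _ = (x : G)
      have hk' : g ^ k = (x : G) := hk
      have h1 : (⟨x, hLK x⟩ : K) = ⟨g, hg⟩ ^ k := by
        apply Subtype.ext
        show (x : G) = g ^ k
        rw [hk']
      rw [h1, map_zpow, toAdd_zpow, ← hc, smul_eq_mul, Int.mul_ediv_cancel _ hc0, hk']

/-- a homomorphism to the integers on a subgroup of finite index which does not vanish on a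
power of `g` -/
theorem vr_of_hom (g : G) (H : Subgroup G) (hH : H.FiniteIndex) (h : H →* Zm) (k : ℤ)
    (hk : g ^ k ∈ H) (hne : h ⟨g ^ k, hk⟩ ≠ 1) : IsVirtualRetract (zpowers g) := by
  classical
  let N : Subgroup G := H.normalCore
  have hN : N.Normal := normalCore_normal H
  have hNH : N ≤ H := normalCore_le H
  have hNf : N.FiniteIndex := inferInstance
  -- the function on the group
  let h0 : G → Zm := fun x => if hx : x ∈ H then h ⟨x, hx⟩ else 1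
  have h0H : ∀ x (hx : x ∈ H), h0 x = h ⟨x, hx⟩ := fun x hx => dif_pos hx
  have h0mul : ∀ x y, x ∈ H → y ∈ H → h0 (x * y) = h0 x * h0 y := by
    intro x y hx hy
    rw [h0H x hx, h0H y hy, h0H _ (H.mul_mem hx hy), ← map_mul]; rfl
  -- the period
  have hfin : Finite (G ⧸ N) := Subgroup.finite_quotient_of_finiteIndex
  let n : ℕ := orderOf (g : G ⧸ N)
  have hn : 0 < n := orderOf_pos _
  have hper : ∀ i : ℤ, g ^ i ∈ N ↔ (n : ℤ) ∣ i := by
    intro i
    rw [orderOf_dvd_iff_zpow_eq_one, ← QuotientGroup.mk_zpow, QuotientGroup.eq_one_iff]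
  have hgn : g ^ (n : ℤ) ∈ N := (hper n).2 (dvd_refl _)
  have hconj : ∀ (i : ℤ) x, x ∈ N → g ^ i * x * (g ^ i)⁻¹ ∈ N := fun i x hx => hN.conj_mem x hx _
  -- the average
  let hb : G → Zm := fun x => ∏ i ∈ Finset.range n, h0 (g ^ (i : ℤ) * x * (g ^ (i : ℤ))⁻¹)
  have hbmul : ∀ x y, x ∈ N → y ∈ N → hb (x * y) = hb x * hb y := by
    intro x y hx hy
    show ∏ i ∈ Finset.range n, h0 _ = (∏ i ∈ Finset.range n, h0 _) * ∏ i ∈ Finset.range n, h0 _
    rw [← Finset.prod_mul_distrib]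
    refine Finset.prod_congr rfl fun i _ => ?_
    rw [← h0mul _ _ (hNH (hconj i x hx)) (hNH (hconj i y hy))]
    congr 1
    group
  have hbconj1 : ∀ x, x ∈ N → hb (g * x * g⁻¹) = hb x := by
    intro x hx
    have h2 := Finset.prod_range_succ (fun i : ℕ => h0 (g ^ (i : ℤ) * x * (g ^ (i : ℤ))⁻¹)) n
    have h3 := Finset.prod_range_succ' (fun i : ℕ => h0 (g ^ (i : ℤ) * x * (g ^ (i : ℤ))⁻¹)) n
    rw [h2] at h3
    have h4 : h0 (g ^ (n : ℤ) * x * (g ^ (n : ℤ))⁻¹) = h0 x := by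
      rw [h0mul _ _ (H.mul_mem (hNH hgn) (hNH hx)) (H.inv_mem (hNH hgn)),
        h0mul _ _ (hNH hgn) (hNH hx), mul_comm (h0 (g ^ (n : ℤ))), mul_assoc,
        ← h0mul _ _ (hNH hgn) (H.inv_mem (hNH hgn)), mul_inv_cancel, h0H 1 H.one_mem]
      have : (⟨1, H.one_mem⟩ : H) = 1 := rfl
      rw [this, map_one, mul_one]
    have h5 : h0 (g ^ ((0 : ℕ) : ℤ) * x * (g ^ ((0 : ℕ) : ℤ))⁻¹) = h0 x := by
      congr 1
      simp
    have h6 : hb (g * x * g⁻¹) = ∏ i ∈ Finset.range n,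
        h0 (g ^ ((i + 1 : ℕ) : ℤ) * x * (g ^ ((i + 1 : ℕ) : ℤ))⁻¹) := by
      refine Finset.prod_congr rfl fun i _ => ?_
      congr 1
      push_cast
      group
    rw [h4, h5] at h3
    rw [h6]
    exact (mul_right_cancel h3).symm
  have hbconj2 : ∀ (i : ℕ) x, x ∈ N → hb (g ^ i * x * (g ^ i)⁻¹) = hb x := by
    intro i
    induction i with
    | zero => intro x hx; simp
    | succ i ih =>
      intro x hx
      have h1 : g ^ (i + 1) * x * (g ^ (i + 1))⁻¹ = g * (g ^ i * x * (g ^ i)⁻¹) * g⁻¹ := by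
        rw [pow_succ']; group
      rw [h1, hbconj1 _ (hN.conj_mem x hx _), ih x hx]
  have hbconj : ∀ (i : ℤ) x, x ∈ N → hb (g ^ i * x * (g ^ i)⁻¹) = hb x := by
    intro i x hx
    obtain ⟨m, rfl | rfl⟩ := i.eq_nat_or_neg
    · rw [zpow_natCast]; exact hbconj2 m x hx
    · have h1 := hbconj2 m (g ^ (-(m : ℤ)) * x * (g ^ (-(m : ℤ)))⁻¹) (hN.conj_mem x hx _)
      rw [← h1]
      congr 1
      rw [zpow_neg, zpow_natCast]
      group
  let hbN : N →* Zm := MonoidHom.mk' (fun x => hb x) fun x y => hbmul x y x.2 y.2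
  have hbzpow : ∀ x (_ : x ∈ N) (l : ℤ), hb (x ^ l) = hb x ^ l := by
    intro x hx l
    exact map_zpow hbN ⟨x, hx⟩ l
  -- the extension
  let val : G → ℤ → Zm := fun y i => hb (y * (g ^ i)⁻¹) ^ (n : ℤ) * hb (g ^ (n : ℤ)) ^ i
  have hval : ∀ y i i', y * (g ^ i)⁻¹ ∈ N → y * (g ^ i')⁻¹ ∈ N → val y i = val y i' := by
    intro y i i' hi hi'
    have h1 : g ^ (i' - i) ∈ N := by
      have h2 := N.mul_mem (N.inv_mem hi') hi
      have h3 : (y * (g ^ i')⁻¹)⁻¹ * (y * (g ^ i)⁻¹) = g ^ (i' - i) := by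
        rw [zpow_sub]; group
      rwa [h3] at h2
    obtain ⟨l, hl⟩ := (hper _).1 h1
    have h4 : i' = i + n * l := by omega
    have h5 : y * (g ^ i)⁻¹ = y * (g ^ i')⁻¹ * (g ^ (n : ℤ)) ^ l := by
      rw [h4, ← zpow_mul, zpow_add]; group
    show hb (y * (g ^ i)⁻¹) ^ (n : ℤ) * hb (g ^ (n : ℤ)) ^ i =
      hb (y * (g ^ i')⁻¹) ^ (n : ℤ) * hb (g ^ (n : ℤ)) ^ i'
    rw [h5, hbmul _ _ hi' (N.zpow_mem hgn l), hbzpow _ hgn, mul_zpow, ← zpow_mul, mul_assoc,
      ← zpow_add, h4, mul_comm l, add_comm i]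
  let K : Subgroup G := (zpowers (g : G ⧸ N)).comap (QuotientGroup.mk' N)
  have hK : ∀ y : K, ∃ i : ℤ, (y : G) * (g ^ i)⁻¹ ∈ N := by
    rintro ⟨y, i, hi⟩
    refine ⟨i, ?_⟩
    have hi' : (g : G ⧸ N) ^ i = (y : G ⧸ N) := hi
    rw [← QuotientGroup.eq_one_iff, QuotientGroup.mk_mul, ← hi', QuotientGroup.mk_inv,
      QuotientGroup.mk_zpow, mul_inv_cancel]
  have hNK : N ≤ K := by
    intro x hx
    refine ⟨0, ?_⟩
    show (g : G ⧸ N) ^ (0 : ℤ) = (x : G ⧸ N)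
    rw [zpow_zero, ((QuotientGroup.eq_one_iff x).2 hx)]
  have hKf : K.FiniteIndex := Subgroup.finiteIndex_of_le hNK
  have hgK : g ∈ K := mem_zpowers _
  choose ix hix using hK
  let ht : K →* Zm := MonoidHom.mk' (fun y => val y (ix y)) (by
    intro a b
    have h1 : ((a * b : K) : G) * (g ^ (ix a + ix b))⁻¹ =
        (a * (g ^ ix a)⁻¹) * (g ^ ix a * (b * (g ^ ix b)⁻¹) * (g ^ ix a)⁻¹) := by
      rw [zpow_add]
      show (a : G) * b * _ = _
      group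
    have h2 : ((a * b : K) : G) * (g ^ (ix a + ix b))⁻¹ ∈ N := by
      rw [h1]
      exact N.mul_mem (hix a) (hconj _ _ (hix b))
    show val (a * b : K) (ix (a * b)) = val a (ix a) * val b (ix b)
    rw [hval _ _ _ (hix (a * b)) h2]
    show hb (((a * b : K) : G) * (g ^ (ix a + ix b))⁻¹) ^ (n : ℤ) *
      hb (g ^ (n : ℤ)) ^ (ix a + ix b) = hb (a * (g ^ ix a)⁻¹) ^ (n : ℤ) * hb (g ^ (n : ℤ)) ^ (ix a) *
      (hb (b * (g ^ ix b)⁻¹) ^ (n : ℤ) * hb (g ^ (n : ℤ)) ^ (ix b))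
    rw [h1, hbmul _ _ (hix a) (hconj _ _ (hix b)), hbconj _ _ (hix b), mul_zpow, zpow_add]
    exact mul_mul_mul_comm _ _ _ _)
  refine vr_of_mem g K hKf hgK ht ?_
  have h1 : ht ⟨g, hgK⟩ = val g 1 :=
    hval _ _ _ (hix ⟨g, hgK⟩) (by rw [zpow_one, mul_inv_cancel]; exact N.one_mem)
  have h2 : val g 1 = hb (g ^ (n : ℤ)) := by
    show hb (g * (g ^ (1 : ℤ))⁻¹) ^ (n : ℤ) * hb (g ^ (n : ℤ)) ^ (1 : ℤ) = _
    rw [zpow_one, mul_inv_cancel, zpow_one]
    have : hb 1 = 1 := map_one hbN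
    rw [this, one_zpow, one_mul]
  have h3 : hb (g ^ (n : ℤ)) = h0 (g ^ (n : ℤ)) ^ n := by
    show ∏ i ∈ Finset.range n, h0 _ = _
    rw [← Finset.card_range n, ← Finset.prod_const, Finset.card_range]
    refine Finset.prod_congr rfl fun i _ => ?_
    congr 1
    group
  rw [h1, h2, h3]
  intro h4
  have h5 : h0 (g ^ (n : ℤ)) = 1 := by
    have h6 : (n : ℤ) • Multiplicative.toAdd (h0 (g ^ (n : ℤ))) = 0 := by
      rw [← toAdd_zpow, zpow_natCast, h4]; rfl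
    rw [smul_eq_mul] at h6
    rcases mul_eq_zero.1 h6 with h7 | h7
    · omega
    · exact toAdd_eq_zero.1 h7
  have h6 : (h ⟨g ^ k, hk⟩) ^ (n : ℤ) = 1 := by
    rw [← map_zpow]
    have h7 : (⟨g ^ k, hk⟩ : H) ^ (n : ℤ) = ⟨g ^ (n : ℤ), hNH hgn⟩ ^ k := by
      apply Subtype.ext
      show (g ^ k) ^ (n : ℤ) = (g ^ (n : ℤ)) ^ k
      rw [← zpow_mul, ← zpow_mul, mul_comm]
    rw [h7, map_zpow, ← h0H, h5, one_zpow]
  apply hne
  have h8 : (n : ℤ) • Multiplicative.toAdd (h ⟨g ^ k, hk⟩) = 0 := by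
    rw [← toAdd_zpow, h6]; rfl
  rw [smul_eq_mul] at h8
  rcases mul_eq_zero.1 h8 with h7 | h7
  · omega
  · exact toAdd_eq_zero.1 h7

/-- a subgroup of finite index which meets `⟨g⟩` trivially -/
theorem vr_of_disjoint (g : G) (H : Subgroup G) (hH : H.FiniteIndex)
    (hd : ∀ k : ℤ, g ^ k ∈ H → g ^ k = 1) : IsVirtualRetract (zpowers g) := by
  let N : Subgroup G := H.normalCore
  have hN : N.Normal := normalCore_normal H
  have hNH : N ≤ H := normalCore_le H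
  have hNf : N.FiniteIndex := inferInstance
  let K : Subgroup G := (zpowers (g : G ⧸ N)).comap (QuotientGroup.mk' N)
  have hK : ∀ y : K, ∃ i : ℤ, (y : G) * (g ^ i)⁻¹ ∈ N := by
    rintro ⟨y, i, hi⟩
    refine ⟨i, ?_⟩
    have hi' : (g : G ⧸ N) ^ i = (y : G ⧸ N) := hi
    rw [← QuotientGroup.eq_one_iff, QuotientGroup.mk_mul, ← hi', QuotientGroup.mk_inv,
      QuotientGroup.mk_zpow, mul_inv_cancel]
  have hNK : N ≤ K := by
    intro x hx
    refine ⟨0, ?_⟩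
    show (g : G ⧸ N) ^ (0 : ℤ) = (x : G ⧸ N)
    rw [zpow_zero, ((QuotientGroup.eq_one_iff x).2 hx)]
  have hKf : K.FiniteIndex := Subgroup.finiteIndex_of_le hNK
  have hgK : g ∈ K := mem_zpowers _
  have huniq : ∀ (y : G) (i i' : ℤ), y * (g ^ i)⁻¹ ∈ N → y * (g ^ i')⁻¹ ∈ N → g ^ i = g ^ i' := by
    intro y i i' hi hi'
    have h2 := N.mul_mem (N.inv_mem hi') hi
    have h3 : (y * (g ^ i')⁻¹)⁻¹ * (y * (g ^ i)⁻¹) = g ^ (i' - i) := by
      rw [zpow_sub]; group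
    rw [h3] at h2
    have h4 := hd _ (hNH h2)
    rw [zpow_sub] at h4
    exact (mul_inv_eq_one.1 h4).symm
  choose ix hix using hK
  refine ⟨K, hKf, by rw [zpowers_le]; exact hgK, MonoidHom.mk' (fun y => ⟨g ^ ix y, ⟨_, rfl⟩⟩) ?_, ?_⟩
  · intro a b
    apply Subtype.ext
    show g ^ ix (a * b) = g ^ ix a * g ^ ix b
    rw [← zpow_add]
    refine huniq _ _ _ (hix (a * b)) ?_
    have h1 : ((a * b : K) : G) * (g ^ (ix a + ix b))⁻¹ =
        (a * (g ^ ix a)⁻¹) * (g ^ ix a * (b * (g ^ ix b)⁻¹) * (g ^ ix a)⁻¹) := by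
      rw [zpow_add]
      show (a : G) * b * _ = _
      group
    rw [h1]
    exact N.mul_mem (hix a) (hN.conj_mem _ (hix b) _)
  · rintro x ⟨k, hk⟩
    have hk' : g ^ k = (x : G) := hk
    apply Subtype.ext
    show g ^ ix x = x
    rw [← hk']
    refine huniq x _ _ (hix x) ?_
    rw [hk', mul_inv_cancel]
    exact N.one_mem

/-- invariance under isomorphisms -/
theorem vr_map {G' : Type*} [Group G'] (e : G ≃* G') (H : Subgroup G) (h : IsVirtualRetract H) :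
    IsVirtualRetract (H.map e.toMonoidHom) := by
  obtain ⟨K, hK, hHK, ρ, hρ⟩ := h
  have hKm : ∀ x : (K.map e.toMonoidHom : Subgroup G'), e.symm x ∈ K := by
    rintro ⟨_, y, hy, rfl⟩
    show e.symm (e y) ∈ K
    rw [e.symm_apply_apply]; exact hy
  refine ⟨K.map e.toMonoidHom, ?_, map_mono hHK, MonoidHom.mk' (fun x =>
    ⟨e (ρ ⟨e.symm x, hKm x⟩), ⟨_, (ρ ⟨e.symm x, hKm x⟩).2, rfl⟩⟩) ?_, ?_⟩
  · refine ⟨?_⟩
    have h1 := index_map_equiv K e
    have h2 : (map e.toMonoidHom K).index = K.index := h1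
    rw [h2]
    exact hK.index_ne_zero
  · intro a b
    apply Subtype.ext
    show e _ = e _ * e _
    rw [← map_mul]
    congr 1
    rw [← Subgroup.coe_mul, ← map_mul]
    congr 2
    apply Subtype.ext
    show e.symm (a * b) = e.symm a * e.symm b
    rw [map_mul]
  · rintro ⟨x, hxK⟩ ⟨y, hy, hxy⟩
    apply Subtype.ext
    have hxy' : e y = x := hxy
    subst hxy'
    show e (ρ ⟨e.symm (e y), _⟩ : G) = e y
    have h1 : (⟨e.symm (e y), hKm ⟨e y, hxK⟩⟩ : K) = ⟨y, hHK hy⟩ :=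
      Subtype.ext (e.symm_apply_apply y)
    rw [h1, hρ ⟨y, hHK hy⟩ hy]

/-- invariance under conjugation -/
theorem vr_conj (g x : G) (h : IsVirtualRetract (zpowers (x * g * x⁻¹))) :
    IsVirtualRetract (zpowers g) := by
  have h1 := vr_map (MulAut.conj x⁻¹) _ h
  have h2 : (zpowers (x * g * x⁻¹)).map (MulAut.conj x⁻¹).toMonoidHom = zpowers g := by
    rw [MonoidHom.map_zpowers]
    congr 1
    show x⁻¹ * (x * g * x⁻¹) * x⁻¹⁻¹ = g
    group
  rwa [h2] at h1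

end Pool.Agent.X176.VR
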