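import Mathlib

/-!
Virtual retracts, property (VRC), and amalgamated products.
-/

set_option autoImplicit false

namespace Pool.Agent.X176.VR

/-- `H` is a virtual retract: there is a subgroup `K ⊇ H` of finite index with a homomorphism
`K → H` which is the identity on `H` -/
def IsVirtualRetract {G : Type*} [Group G] (H : Subgroup G) : Prop :=
  ∃ K : Subgroup G, K.FiniteIndex ∧ H ≤ K ∧
    ∃ ρ : K →* H, ∀ (x : K) (hx : (x : G) ∈ H), ρ x = ⟨x, hx⟩

/-- every cyclic subgroup is a virtual retract -/
def VRC (G : Type*) [Group G] : Prop :=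
  ∀ g : G, IsVirtualRetract (Subgroup.zpowers g)

/-- there is a cyclic subgroup of finite index -/
def VirtuallyCyclic (G : Type*) [Group G] : Prop :=
  ∃ g : G, (Subgroup.zpowers g).FiniteIndex

/-- the amalgamated free product of `P` and `Q` identifying `R ≤ P` with `S ≤ Q` via `φ` -/
def Amalgam {P Q : Type*} [Group P] [Group Q] (R : Subgroup P) (S : Subgroup Q) (φ : R ≃* S) :
    Type _ :=
  Monoid.Coprod P Q ⧸ Subgroup.normalClosure
    (Set.range fun r : R => Monoid.Coprod.inl (r : P) * (Monoid.Coprod.inr (φ r : Q))⁻¹)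

instance {P Q : Type*} [Group P] [Group Q] (R : Subgroup P) (S : Subgroup Q) (φ : R ≃* S) :
    Group (Amalgam R S φ) :=
  inferInstanceAs (Group (Monoid.Coprod P Q ⧸ Subgroup.normalClosure
    (Set.range fun r : R => Monoid.Coprod.inl (r : P) * (Monoid.Coprod.inr (φ r : Q))⁻¹)))

end Pool.Agent.X176.VR
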