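import Pool.Agent.X176.VR.Basic

/-!
Consequences of property (VRC) for the profinite topology.
-/

set_option autoImplicit false

namespace Pool.Agent.X176.VR

open Subgroup

variable {P : Type*} [Group P]

theorem exists_hom (hP : VRC P) (z : P) (hz : ∀ k : ℤ, z ^ k = 1 → k = 0) :
    ∃ (K : Subgroup P) (_ : K.FiniteIndex) (hzK : z ∈ K) (l : K →* Zm),
      l ⟨z, hzK⟩ = Multiplicative.ofAdd 1 := by
  obtain ⟨K, hK, hzK, ρ, hρ⟩ := hP z
  have hzK' : z ∈ K := hzK (mem_zpowers z)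
  have hm : ∀ x : K, ∃ m : ℤ, z ^ m = (ρ x : P) := fun x => (ρ x).2
  choose m hm using hm
  have hinj : ∀ a b : ℤ, z ^ a = z ^ b → a = b := by
    intro a b hab
    have h1 : z ^ (a - b) = 1 := by rw [zpow_sub, hab, mul_inv_cancel]
    have := hz _ h1
    omega
  refine ⟨K, hK, hzK', MonoidHom.mk' (fun x => Multiplicative.ofAdd (m x)) ?_, ?_⟩
  · intro a b
    rw [← ofAdd_add]
    congr 1
    apply hinj
    rw [zpow_add, hm, hm, hm, map_mul]; rfl
  · show Multiplicative.ofAdd (m _) = _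
    congr 1
    apply hinj
    rw [hm, hρ ⟨z, hzK'⟩ (mem_zpowers z), zpow_one]

theorem rf (hP : VRC P) (y : P) (hy : y ≠ 1) :
    ∃ N : Subgroup P, N.Normal ∧ N.FiniteIndex ∧ y ∉ N := by
  by_cases hz : ∀ k : ℤ, y ^ k = 1 → k = 0
  · obtain ⟨K, hK, hyK, l, hl⟩ := exists_hom hP y hz
    let f : K →* Multiplicative (ZMod 2) :=
      (AddMonoidHom.toMultiplicative (Int.castAddHom (ZMod 2))).comp l
    have hfin : f.ker.FiniteIndex := Subgroup.finiteIndex_ker f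
    have hL := finiteIndex_map_subtype K hK _ hfin
    refine ⟨(f.ker.map K.subtype).normalCore, normalCore_normal _, inferInstance, ?_⟩
    intro h1
    obtain ⟨x, hx, hxy⟩ := normalCore_le _ h1
    have hxy' : x = ⟨y, hyK⟩ := Subtype.ext hxy
    have h2 : f x = 1 := hx
    rw [hxy'] at h2
    have h3 : Multiplicative.ofAdd (((Multiplicative.toAdd (l ⟨y, hyK⟩) : ℤ) : ZMod 2)) = 1 := h2
    rw [hl] at h3
    have h4 : (((1 : ℤ)) : ZMod 2) = 0 := h3
    exact absurd h4 (by decide)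
  · push Not at hz
    obtain ⟨k, hk, hk0⟩ := hz
    obtain ⟨K, hK, hyK, ρ, hρ⟩ := hP y
    have hyK' : y ∈ K := hyK (mem_zpowers y)
    have hfo : IsOfFinOrder y := isOfFinOrder_iff_zpow_eq_one.2 ⟨k, hk0, hk⟩
    have hfz : Finite (zpowers y) := hfo.finite_zpowers
    have hfin : ρ.ker.FiniteIndex := Subgroup.finiteIndex_ker ρ
    have hL := finiteIndex_map_subtype K hK _ hfin
    refine ⟨(ρ.ker.map K.subtype).normalCore, normalCore_normal _, inferInstance, ?_⟩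
    intro h1
    obtain ⟨x, hx, hxy⟩ := normalCore_le _ h1
    have hxy' : x = ⟨y, hyK'⟩ := Subtype.ext hxy
    have h2 : ρ x = 1 := hx
    rw [hxy', hρ ⟨y, hyK'⟩ (mem_zpowers y)] at h2
    exact hy (congrArg Subtype.val h2)

theorem sep (hP : VRC P) (g y : P) (hy : y ∉ zpowers g) :
    ∃ N : Subgroup P, N.Normal ∧ N.FiniteIndex ∧ ∀ k : ℤ, y * g ^ k ∉ N := by
  obtain ⟨K, hK, hgK, ρ, hρ⟩ := hP g
  have hgK' : g ∈ K := hgK (mem_zpowers g)
  by_cases hyK : y ∈ K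
  · have hu : y * (ρ ⟨y, hyK⟩ : P)⁻¹ ≠ 1 := by
      intro h1
      apply hy
      rw [mul_inv_eq_one.1 h1]
      exact (ρ ⟨y, hyK⟩).2
    obtain ⟨N1, hN1, hN1f, hN1u⟩ := rf hP _ hu
    let D : Subgroup K := N1.comap K.subtype ⊓ (N1.comap (zpowers g).subtype).comap ρ
    have hD1 := finiteIndex_comap K.subtype N1 hN1f
    have hD2 := finiteIndex_comap ρ _ (finiteIndex_comap (zpowers g).subtype N1 hN1f)
    have hD : D.FiniteIndex := inferInstanceAs (N1.comap K.subtype ⊓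
      (N1.comap (zpowers g).subtype).comap ρ).FiniteIndex
    have hL := finiteIndex_map_subtype K hK _ hD
    refine ⟨(D.map K.subtype).normalCore, normalCore_normal _, inferInstance, ?_⟩
    intro k h1
    obtain ⟨x, hx, hxy⟩ := normalCore_le _ h1
    have hx1 : (x : P) ∈ N1 := hx.1
    have hx2 : (ρ x : P) ∈ N1 := hx.2
    have hxy' : x = ⟨y, hyK⟩ * ⟨g, hgK'⟩ ^ k := Subtype.ext hxy
    have h3 : (ρ x : P) = ρ ⟨y, hyK⟩ * g ^ k := by
      rw [hxy', map_mul, map_zpow, hρ ⟨g, hgK'⟩ (mem_zpowers g)]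
      rfl
    apply hN1u
    have h4 : y * (ρ ⟨y, hyK⟩ : P)⁻¹ = x * (ρ x : P)⁻¹ := by
      rw [h3, hxy']
      show _ = y * g ^ k * _
      group
    rw [h4]
    exact N1.mul_mem hx1 (N1.inv_mem hx2)
  · refine ⟨K.normalCore, normalCore_normal _, inferInstance, ?_⟩
    intro k h1
    apply hyK
    have h2 := K.mul_mem (normalCore_le _ h1) (K.zpow_mem hgK' (-k))
    have h3 : y * g ^ k * g ^ (-k) = y := by group
    rwa [h3] at h2

theorem sep_fin (hP : VRC P) (g : P) {ι : Type*} [Finite ι] (y : ι → P)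
    (hy : ∀ q, y q ∉ zpowers g) (U : Subgroup P) (hU : U.FiniteIndex) :
    ∃ N : Subgroup P, N.Normal ∧ N.FiniteIndex ∧ N ≤ U ∧ ∀ q (k : ℤ), y q * g ^ k ∉ N := by
  choose N hN hNf hNy using fun q => sep hP g (y q) (hy q)
  have h1 : (⨅ q, N q).FiniteIndex := finiteIndex_iInf hNf
  have h2 : (⨅ q, N q).Normal := normal_iInf_normal hN
  refine ⟨(⨅ q, N q) ⊓ U.normalCore, inferInstance, inferInstance,
    inf_le_right.trans (normalCore_le _), ?_⟩
  intro q k h3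
  exact hNy q k ((iInf_le N q) h3.1)

variable {R : Type*} [Group R] (i : R →* P)

theorem cut (hP : VRC P) (hi : Function.Injective i) (z : R) (hz : (zpowers z).FiniteIndex)
    (U : Subgroup P) (hU : U.FiniteIndex) :
    ∃ N : Subgroup P, N.Normal ∧ N.FiniteIndex ∧ N ≤ U ∧ ∀ r, i r ∈ N → r ∈ zpowers z := by
  have hfin : Finite (R ⧸ zpowers z) := Subgroup.finite_quotient_of_finiteIndex
  obtain ⟨N, hN, hNf, hNU, hNy⟩ := sep_fin hP (i z)
    (ι := {q : R ⧸ zpowers z // q ≠ ((1 : R) : R ⧸ zpowers z)}) (fun q => i q.1.out) (by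
      rintro ⟨q, hq⟩ ⟨k, hk⟩
      apply hq
      have h1 : (i z) ^ k = i q.out := hk
      rw [← map_zpow] at h1
      have h2 := hi h1
      rw [← q.out_eq', ← h2]
      refine (QuotientGroup.eq.2 ?_).symm
      rw [inv_one, one_mul]
      exact ⟨k, rfl⟩) U hU
  refine ⟨N, hN, hNf, hNU, ?_⟩
  intro r hr
  by_contra hrz
  have hq : (r : R ⧸ zpowers z) ≠ ((1 : R) : R ⧸ zpowers z) := by
    intro h1
    have h2 := QuotientGroup.eq.1 h1
    rw [mul_one] at h2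
    exact hrz (by simpa using (zpowers z).inv_mem h2)
  have h1 : ((r : R ⧸ zpowers z).out)⁻¹ * r ∈ zpowers z := by
    rw [← QuotientGroup.eq]
    exact Quotient.out_eq' _
  obtain ⟨k, hk⟩ := h1
  have hk' : z ^ k = ((r : R ⧸ zpowers z).out)⁻¹ * r := hk
  apply hNy ⟨_, hq⟩ k
  show i _ * (i z) ^ k ∈ N
  rw [← map_zpow, ← map_mul, hk', mul_inv_cancel_left]
  exact hr

theorem closed (hP : VRC P) (z : R) (hz : (zpowers z).FiniteIndex)
    {κ : Type*} [Finite κ] (p : κ → P) (hp : ∀ a r, i r ≠ p a) :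
    ∃ N : Subgroup P, N.Normal ∧ N.FiniteIndex ∧ ∀ a r, p a * i r ∉ N := by
  have hfin : Finite (R ⧸ zpowers z) := Subgroup.finite_quotient_of_finiteIndex
  obtain ⟨N, hN, hNf, -, hNy⟩ := sep_fin hP (i z)
    (ι := κ × (R ⧸ zpowers z)) (fun q => p q.1 * i q.2.out) (by
      rintro ⟨a, q⟩ ⟨k, hk⟩
      have h1 : (i z) ^ k = p a * i q.out := hk
      rw [← map_zpow] at h1
      apply hp a (z ^ k * q.out⁻¹)
      rw [map_mul, h1, map_inv, mul_inv_cancel_right]) ⊤ inferInstance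
  refine ⟨N, hN, hNf, ?_⟩
  intro a r hr
  have h1 : ((r : R ⧸ zpowers z).out)⁻¹ * r ∈ zpowers z := by
    rw [← QuotientGroup.eq]
    exact Quotient.out_eq' _
  obtain ⟨k, hk⟩ := h1
  have hk' : z ^ k = ((r : R ⧸ zpowers z).out)⁻¹ * r := hk
  apply hNy ⟨a, r⟩ k
  show p a * i _ * (i z) ^ k ∈ N
  rw [← map_zpow, mul_assoc, ← map_mul, hk', mul_inv_cancel_left]
  exact hr

theorem match1 (hP : VRC P) (hi : Function.Injective i) (z0 : R) (hz : (zpowers z0).FiniteIndex)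
    (hinf : ∀ k : ℤ, z0 ^ k = 1 → k = 0) (U : Subgroup P) (hU : U.FiniteIndex) :
    ∃ s : ℤ, s ≠ 0 ∧ ∀ t : ℤ, t ≠ 0 → ∃ N : Subgroup P, N.Normal ∧ N.FiniteIndex ∧ N ≤ U ∧
      ∀ r, i r ∈ N ↔ r ∈ zpowers (z0 ^ (s * t)) := by
  classical
  have hinfi : ∀ k : ℤ, (i z0) ^ k = 1 → k = 0 := by
    intro k hk
    rw [← map_zpow, ← map_one i] at hk
    exact hinf k (hi hk)
  obtain ⟨K, hK, hzK, l, hl⟩ := exists_hom hP (i z0) hinfi
  obtain ⟨N0, hN0, hN0f, hN0U, hN0z⟩ := cut i hP hi z0 hz (U ⊓ K) inferInstance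
  have hN0K : N0 ≤ K := hN0U.trans inf_le_right
  -- the exponents
  let S : AddSubgroup ℤ :=
    { carrier := {k | (i z0) ^ k ∈ N0}
      zero_mem' := by show (i z0) ^ (0 : ℤ) ∈ N0; rw [zpow_zero]; exact N0.one_mem
      add_mem' := by
        intro a b ha hb
        show (i z0) ^ (a + b) ∈ N0
        rw [zpow_add]; exact N0.mul_mem ha hb
      neg_mem' := by
        intro a ha
        show (i z0) ^ (-a) ∈ N0
        rw [zpow_neg]; exact N0.inv_mem ha }
  obtain ⟨s, hs⟩ := Int.subgroup_cyclic S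
  have hsS : ∀ k : ℤ, (i z0) ^ k ∈ N0 ↔ s ∣ k := by
    intro k
    have h1 : k ∈ S ↔ k ∈ AddSubgroup.closure {s} := by rw [hs]
    rw [AddSubgroup.mem_closure_singleton] at h1
    refine Iff.trans (show _ ↔ k ∈ S from Iff.rfl) (h1.trans ?_)
    constructor
    · rintro ⟨n, hn⟩
      exact ⟨n, by rw [← hn, smul_eq_mul, mul_comm]⟩
    · rintro ⟨n, hn⟩
      exact ⟨n, by rw [hn, smul_eq_mul, mul_comm]⟩
  have hs0 : s ≠ 0 := by
    rintro rfl
    have h1 : (i z0) ^ ((N0.index : ℕ) : ℤ) ∈ N0 := by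
      rw [zpow_natCast]; exact N0.pow_index_mem _
    have h2 := (hsS _).1 h1
    rw [zero_dvd_iff] at h2
    exact hN0f.index_ne_zero (by exact_mod_cast h2)
  have hzN : (i z0) ^ s ∈ N0 := (hsS s).2 (dvd_refl _)
  let l0 : P → ℤ := fun x => if hx : x ∈ K then Multiplicative.toAdd (l ⟨x, hx⟩) else 0
  have l0K : ∀ x (hx : x ∈ K), l0 x = Multiplicative.toAdd (l ⟨x, hx⟩) := fun x hx => dif_pos hx
  have l0pow : ∀ x, x ∈ K → ∀ k : ℤ, l0 (x ^ k) = k * l0 x := by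
    intro x hx k
    rw [l0K x hx, l0K _ (K.zpow_mem hx k)]
    have : (⟨x ^ k, K.zpow_mem hx k⟩ : K) = ⟨x, hx⟩ ^ k := rfl
    rw [this, map_zpow, toAdd_zpow, smul_eq_mul]
  let I : Ideal ℤ := Ideal.span (Set.range fun y : P => l0 (y * (i z0) ^ s * y⁻¹))
  have hIp : ∃ c, I = Ideal.span {c} := ⟨_, (Ideal.span_singleton_generator I).symm⟩
  obtain ⟨c, hc⟩ := hIp
  have hcd : ∀ y : P, c ∣ l0 (y * (i z0) ^ s * y⁻¹) := by
    intro y
    rw [← Ideal.mem_span_singleton, ← hc]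
    exact Ideal.subset_span ⟨y, rfl⟩
  have hl1 : l0 ((i z0) ^ s) = s := by
    rw [l0pow _ hzK, l0K _ hzK, hl]
    show s * 1 = s
    ring
  have hc0 : c ≠ 0 := by
    rintro rfl
    have h1 := hcd 1
    rw [one_mul, inv_one, mul_one, hl1, zero_dvd_iff] at h1
    exact hs0 h1
  refine ⟨s, hs0, ?_⟩
  intro t ht
  have hct : c * t ≠ 0 := mul_ne_zero hc0 ht
  have hnz : NeZero (c * t).natAbs := ⟨Int.natAbs_ne_zero.2 hct⟩
  let f : N0 →* Multiplicative (ZMod (c * t).natAbs) :=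
    (AddMonoidHom.toMultiplicative (Int.castAddHom (ZMod (c * t).natAbs))).comp
      (l.comp (Subgroup.inclusion hN0K))
  have hfin : f.ker.FiniteIndex := Subgroup.finiteIndex_ker f
  have hL := finiteIndex_map_subtype N0 hN0f _ hfin
  have hmem : ∀ x : P, x ∈ f.ker.map N0.subtype ↔ x ∈ N0 ∧ c * t ∣ l0 x := by
    intro x
    have h1 : ∀ x : N0, x ∈ f.ker ↔ c * t ∣ l0 x := by
      intro x
      rw [MonoidHom.mem_ker, l0K x (hN0K x.2)]
      show Multiplicative.ofAdd ((Multiplicative.toAdd (l ⟨x, hN0K x.2⟩) : ℤ) :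
        ZMod (c * t).natAbs) = 1 ↔ _
      rw [ofAdd_eq_one, ZMod.intCast_zmod_eq_zero_iff_dvd, Int.natAbs_dvd]
    constructor
    · rintro ⟨y, hy, rfl⟩
      exact ⟨y.2, (h1 y).1 hy⟩
    · rintro ⟨hx, hx2⟩
      exact ⟨⟨x, hx⟩, (h1 _).2 hx2, rfl⟩
  have hmemN : ∀ x : P, x ∈ (f.ker.map N0.subtype).normalCore ↔
      ∀ y, y * x * y⁻¹ ∈ N0 ∧ c * t ∣ l0 (y * x * y⁻¹) := by
    intro x
    refine Iff.trans (show _ ↔ ∀ y, y * x * y⁻¹ ∈ f.ker.map N0.subtype from Iff.rfl) ?_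
    exact forall_congr' fun y => hmem _
  refine ⟨(f.ker.map N0.subtype).normalCore, normalCore_normal _, inferInstance, ?_, ?_⟩
  · intro x hx
    exact (hN0U ((hmem x).1 (normalCore_le _ hx)).1).1
  · intro r
    rw [hmemN]
    have hkey : ∀ (y : P) (k : ℤ), l0 (y * ((i z0) ^ s) ^ k * y⁻¹) =
        k * l0 (y * (i z0) ^ s * y⁻¹) := by
      intro y k
      rw [← l0pow _ (hN0K (hN0.conj_mem _ hzN y)), conj_zpow]
    constructor
    · intro h
      have h1 := (h 1).1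
      rw [one_mul, inv_one, mul_one] at h1
      obtain ⟨k, hk⟩ := hN0z r h1
      have hk' : z0 ^ k = r := hk
      rw [← hk', map_zpow] at h1
      obtain ⟨m, hm⟩ := (hsS k).1 h1
      have h2 : i r = ((i z0) ^ s) ^ m := by
        rw [← hk', map_zpow, hm, zpow_mul]
      have h3 : ∀ y, c * t ∣ m * l0 (y * (i z0) ^ s * y⁻¹) := by
        intro y
        have h4 := (h y).2
        rwa [h2, hkey] at h4
      have h5 : c ∈ I := by rw [hc]; exact Ideal.mem_span_singleton_self c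
      have h6 : ∀ x ∈ I, c * t ∣ m * x := by
        intro x hx
        induction hx using Submodule.span_induction with
        | mem x hx => obtain ⟨y, rfl⟩ := hx; exact h3 y
        | zero => rw [mul_zero]; exact dvd_zero _
        | add x y _ _ hx hy => rw [mul_add]; exact dvd_add hx hy
        | smul a x _ hx =>
          rw [smul_eq_mul, mul_left_comm]
          exact Dvd.dvd.mul_left hx a
      have h7 := h6 c h5
      rw [mul_comm c t] at h7
      obtain ⟨n, hn⟩ := Int.dvd_of_mul_dvd_mul_right hc0 h7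
      refine ⟨n, ?_⟩
      show (z0 ^ (s * t)) ^ n = r
      rw [← hk', hm, hn, ← zpow_mul, mul_assoc]
    · rintro ⟨k, hk⟩ y
      have hk' : (z0 ^ (s * t)) ^ k = r := hk
      have h2 : i r = ((i z0) ^ s) ^ (t * k) := by
        rw [← hk', map_zpow, map_zpow, ← zpow_mul, ← zpow_mul, mul_assoc]
      rw [h2, hkey]
      refine ⟨hN0.conj_mem _ (N0.zpow_mem hzN _) _, ?_⟩
      obtain ⟨d, hd⟩ := hcd y
      exact ⟨k * d, by rw [hd]; ring⟩

/-- normal subgroups which meet `R` in the same subgroup -/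
theorem pair {Q : Type*} [Group Q] (j : R →* Q) (hP : VRC P) (hQ : VRC Q)
    (hi : Function.Injective i) (hj : Function.Injective j) (z0 : R)
    (hz0 : (zpowers z0).FiniteIndex)
    (U : Subgroup P) (hU : U.FiniteIndex) (V : Subgroup Q) (hV : V.FiniteIndex) :
    ∃ (M : Subgroup P) (N : Subgroup Q) (n : ℤ), M.Normal ∧ M.FiniteIndex ∧ M ≤ U ∧
      N.Normal ∧ N.FiniteIndex ∧ N ≤ V ∧ (∀ r, i r ∈ M ↔ r ∈ zpowers (z0 ^ n)) ∧
      (∀ r, j r ∈ N ↔ r ∈ zpowers (z0 ^ n)) ∧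
      ((n ≠ 0 ∧ ∀ k : ℤ, z0 ^ k = 1 → k = 0) ∨ z0 ^ n = 1) := by
  by_cases hinf : ∀ k : ℤ, z0 ^ k = 1 → k = 0
  · obtain ⟨s, hs, hs'⟩ := match1 i hP hi z0 hz0 hinf U hU
    obtain ⟨t, ht, ht'⟩ := match1 j hQ hj z0 hz0 hinf V hV
    obtain ⟨M, hM, hMf, hMU, hMr⟩ := hs' t ht
    obtain ⟨N, hN, hNf, hNV, hNr⟩ := ht' s hs
    refine ⟨M, N, s * t, hM, hMf, hMU, hN, hNf, hNV, hMr, ?_, Or.inl ⟨mul_ne_zero hs ht, hinf⟩⟩
    rw [mul_comm s t]; exact hNr
  · push Not at hinf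
    obtain ⟨k, hk, hk0⟩ := hinf
    have hfo : IsOfFinOrder z0 := isOfFinOrder_iff_zpow_eq_one.2 ⟨k, hk0, hk⟩
    have hfz : Finite (zpowers z0) := hfo.finite_zpowers
    have hRf : Finite R := by
      have h1 : Nat.card (zpowers z0) * (zpowers z0).index = Nat.card R := card_mul_index _
      apply Nat.finite_of_card_ne_zero
      rw [← h1]
      exact mul_ne_zero Nat.card_pos.ne' hz0.index_ne_zero
    have hbot : (zpowers (1 : R)).FiniteIndex := by
      rw [zpowers_one_eq_bot]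
      infer_instance
    obtain ⟨M, hM, hMf, hMU, hMr⟩ := cut i hP hi 1 hbot U hU
    obtain ⟨N, hN, hNf, hNV, hNr⟩ := cut j hQ hj 1 hbot V hV
    refine ⟨M, N, 0, hM, hMf, hMU, hN, hNf, hNV, fun r => ⟨fun h => ?_, ?_⟩,
      fun r => ⟨fun h => ?_, ?_⟩, Or.inr (zpow_zero _)⟩
    · rw [zpow_zero]; exact hMr r h
    · intro h
      rw [zpow_zero, zpowers_one_eq_bot, mem_bot] at h
      rw [h, map_one]; exact M.one_mem
    · rw [zpow_zero]; exact hNr r h
    · intro h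
      rw [zpow_zero, zpowers_one_eq_bot, mem_bot] at h
      rw [h, map_one]; exact N.one_mem

/-- a subgroup of finite index which meets a finite cyclic subgroup trivially -/
theorem rf_fin (hP : VRC P) (g : P) (hg : IsOfFinOrder g) :
    ∃ U : Subgroup P, U.FiniteIndex ∧ ∀ k : ℤ, g ^ k ∈ U → g ^ k = 1 := by
  have hfz : Finite (zpowers g) := hg.finite_zpowers
  choose N hN hNf hNy using fun q : {x : zpowers g // (x : P) ≠ 1} => rf hP (q.1 : P) q.2
  have h1 : (⨅ q, N q).FiniteIndex := finiteIndex_iInf hNf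
  refine ⟨⨅ q, N q, h1, ?_⟩
  intro k hk
  by_contra hne
  exact hNy ⟨⟨g ^ k, ⟨k, rfl⟩⟩, hne⟩ ((iInf_le N _) hk)

end Pool.Agent.X176.VR
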