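import Pool.Agent.X176.VR.Act
import Pool.Agent.X176.VR.Sep

/-!
Elliptic elements.
-/

set_option autoImplicit false

namespace Pool.Agent.X176.VR

open Subgroup

section

variable {P Q R : Type*} [Group P] [Group Q] [Group R] (i : R →* P) (j : R →* Q)
  (M : Subgroup P) (N : Subgroup Q)

theorem conj_pow_val (hM : M.Normal) (lam : M →* Zm) (z r : R) (k : ℤ) (hr : z ^ k = r) (x : P)
    (hz : i z ∈ M) (h : x⁻¹ * i r * x ∈ M) :
    ∃ hx : x⁻¹ * i z * x ∈ M, lam ⟨_, h⟩ = lam ⟨_, hx⟩ ^ k := by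
  have hx : x⁻¹ * i z * x ∈ M := by
    have := hM.conj_mem _ hz x⁻¹
    rwa [inv_inv] at this
  refine ⟨hx, ?_⟩
  rw [← map_zpow]
  congr 1
  apply Subtype.ext
  show x⁻¹ * i r * x = (x⁻¹ * i z * x) ^ k
  have h1 : (x⁻¹ * i z * x⁻¹⁻¹) ^ k = x⁻¹ * (i z) ^ k * x⁻¹⁻¹ := conj_zpow
  rw [inv_inv] at h1
  rw [h1, ← hr, map_zpow]

theorem ell_gen (hM : M.Normal) (hN : N.Normal) (hMf : M.FiniteIndex) (hNf : N.FiniteIndex) (z : R)
    (hMz : ∀ r, i r ∈ M ↔ r ∈ zpowers z) (hNz : ∀ r, j r ∈ N ↔ r ∈ zpowers z)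
    (lam : M →* Zm) (mu : N →* Zm) (w : P → ℤ) (w' : Q → ℤ)
    (hw : ∀ (x : P) (y : Q) (hx : x⁻¹ * i z * x ∈ M) (hy : y⁻¹ * j z * y ∈ N),
      w' y * Multiplicative.toAdd (lam ⟨_, hx⟩) = w x * Multiplicative.toAdd (mu ⟨_, hy⟩)) :
    ∃ (H : Subgroup (Am i j)) (_ : H.FiniteIndex) (h : H →* Zm) (y0 : Q),
      dc j N y0 = dc j N 1 ∧
      (∀ a (ha : a ∈ M), ∃ haH : aL i j a ∈ H, h ⟨_, haH⟩ = lam ⟨a⁻¹, inv_mem ha⟩ ^ w' y0) ∧
      ∀ p, aL i j p ∈ H → p ∈ M := by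
  let l : DC j N → M →* Zm := fun b => (zpowGroupHom (w' b.out)).comp lam
  let l' : DC i M → N →* Zm := fun a => (zpowGroupHom (w a.out)).comp mu
  have hl : ∀ b (x : M), l b x = lam x ^ w' b.out := fun b x => rfl
  have hl' : ∀ a (x : N), l' a x = mu x ^ w a.out := fun b x => rfl
  have hfin : Finite (DC j N) := dc_finite j N hNf
  have hzM : i z ∈ M := (hMz z).2 (mem_zpowers z)
  have hzN : j z ∈ N := (hNz z).2 (mem_zpowers z)
  have hcM : ∀ (x : P) (r : R), x⁻¹ * i r * x ∈ M ↔ r ∈ zpowers z := by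
    intro x r
    rw [← hMz]
    constructor
    · intro h
      have := hM.conj_mem _ h x
      have h2 : x * (x⁻¹ * i r * x) * x⁻¹ = i r := by group
      rwa [h2] at this
    · intro h
      have := hM.conj_mem _ h x⁻¹
      rwa [inv_inv] at this
  have hcN : ∀ (x : Q) (r : R), x⁻¹ * j r * x ∈ N ↔ r ∈ zpowers z := by
    intro x r
    rw [← hNz]
    constructor
    · intro h
      have := hN.conj_mem _ h x
      have h2 : x * (x⁻¹ * j r * x) * x⁻¹ = j r := by group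
      rwa [h2] at this
    · intro h
      have := hN.conj_mem _ h x⁻¹
      rwa [inv_inv] at this
  obtain ⟨Θ, F, hL, hR, hΘ, hFc, hFe⟩ := exists_act i j M N l l'
    (Equiv.refl (DC i M × DC j N)) (fun a => a.1.out) (fun _ => 1)
    (fun a => dc_out i M a.1) (Equiv.prodComm (DC i M) (DC j N)) (fun a => a.2.out) (fun _ => 1)
    (fun a => dc_out j N a.2) (by
      rintro ⟨a, b⟩ r c
      show (a.out⁻¹ * i r * a.out, c) ∈ Gam M (l b) ↔ (b.out⁻¹ * j r * b.out, c) ∈ Gam N (l' a)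
      rw [mem_Gam, mem_Gam]
      show (∃ h : a.out⁻¹ * i r * a.out ∈ M, l b ⟨_, h⟩ = c) ↔
        ∃ h : b.out⁻¹ * j r * b.out ∈ N, l' a ⟨_, h⟩ = c
      have key : ∀ (h : a.out⁻¹ * i r * a.out ∈ M) (h' : b.out⁻¹ * j r * b.out ∈ N),
          l b ⟨_, h⟩ = l' a ⟨_, h'⟩ := by
        intro h h'
        obtain ⟨k, hk⟩ := (hcM _ _).1 h
        have hk' : z ^ k = r := hk
        rw [hl, hl']
        obtain ⟨hx, h1⟩ := conj_pow_val i M hM lam z r k hk' a.out hzM h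
        obtain ⟨hy, h2⟩ := conj_pow_val j N hN mu z r k hk' b.out hzN h'
        rw [h1, h2]
        apply Multiplicative.toAdd.injective
        rw [toAdd_zpow, toAdd_zpow, toAdd_zpow, toAdd_zpow, smul_eq_mul, smul_eq_mul, smul_eq_mul,
          smul_eq_mul]
        have h3 := hw _ _ hx hy
        linear_combination k * h3
      constructor
      · rintro ⟨h, hc⟩
        have h' := (hcN b.out r).2 ((hcM _ _).1 h)
        exact ⟨h', by rw [← key h h', hc]⟩
      · rintro ⟨h', hc⟩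
        have h := (hcM a.out r).2 ((hcN _ _).1 h')
        exact ⟨h, by rw [key h h', hc]⟩)
  obtain ⟨H, hHf, h, hh, hh'⟩ := stab_hom hMf Θ hΘ (pt l (dc j N 1) (1, 1))
  refine ⟨H, hHf, h, (dc j N 1).out, dc_out j N _, ?_, ?_⟩
  · intro a ha
    apply hh
    rw [hL, smul_pt, smul_pt, pt_eq, mem_Gam]
    have h1 : ((((a, 1) : P × Zm) * (1, 1))⁻¹ *
        (((1, lam ⟨a⁻¹, inv_mem ha⟩ ^ w' (dc j N 1).out) : P × Zm) * (1, 1))).1 = a⁻¹ := by
      show (a * 1)⁻¹ * (1 * 1) = a⁻¹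
      group
    have h2 : ((((a, 1) : P × Zm) * (1, 1))⁻¹ *
        (((1, lam ⟨a⁻¹, inv_mem ha⟩ ^ w' (dc j N 1).out) : P × Zm) * (1, 1))).1 ∈ M := by
      rw [h1]; exact inv_mem ha
    refine ⟨h2, ?_⟩
    have h3 : (⟨_, h2⟩ : M) = ⟨a⁻¹, inv_mem ha⟩ := Subtype.ext h1
    rw [h3, hl]
    show _ = ((1 : Zm) * 1)⁻¹ * (lam ⟨a⁻¹, inv_mem ha⟩ ^ w' (dc j N 1).out * 1)
    rw [mul_one, mul_one, inv_one, one_mul]
  · intro p hp
    obtain ⟨c, hc⟩ := hh' _ hp
    rw [hL, smul_pt, smul_pt] at hc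
    have h1 := (pt_eq' _ _ _ _ hc).2
    have h2 : (p * 1)⁻¹ * (1 * 1) ∈ M := h1
    have h3 : (p * 1)⁻¹ * (1 * 1) = p⁻¹ := by group
    rw [h3] at h2
    exact inv_mem_iff.1 h2

theorem ell_P (hP : VRC P) (hQ : VRC Q) (hi : Function.Injective i) (hj : Function.Injective j)
    (hR : VirtuallyCyclic R) (p : P) : IsVirtualRetract (zpowers (aL i j p)) := by
  obtain ⟨z0, hz0⟩ := hR
  by_cases hp : ∀ k : ℤ, p ^ k = 1 → k = 0
  · obtain ⟨K, hK, hpK, lam0, hlam0⟩ := exists_hom hP p hp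
    have hVex : ∃ (V : Subgroup Q) (_ : V.FiniteIndex) (mu0 : V →* Zm),
        (∀ k : ℤ, z0 ^ k = 1 → k = 0) → ∃ h : j z0 ∈ V, mu0 ⟨_, h⟩ = Multiplicative.ofAdd 1 := by
      by_cases hinf : ∀ k : ℤ, z0 ^ k = 1 → k = 0
      · have hinfj : ∀ k : ℤ, (j z0) ^ k = 1 → k = 0 := by
          intro k hk
          rw [← map_zpow, ← map_one j] at hk
          exact hinf k (hj hk)
        obtain ⟨V, hV, hzV, mu0, hmu0⟩ := exists_hom hQ (j z0) hinfj
        exact ⟨V, hV, mu0, fun _ => ⟨hzV, hmu0⟩⟩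
      · exact ⟨⊤, inferInstance, 1, fun h => absurd h hinf⟩
    obtain ⟨V, hV, mu0, hmu0⟩ := hVex
    obtain ⟨M, N, n, hM, hMf, hMU, hN, hNf, hNV, hMz, hNz, hcase⟩ :=
      pair i j hP hQ hi hj z0 hz0 K hK V hV
    let lam : M →* Zm := lam0.comp (Subgroup.inclusion hMU)
    let mu : N →* Zm := mu0.comp (Subgroup.inclusion hNV)
    have hzM : i (z0 ^ n) ∈ M := (hMz _).2 (mem_zpowers _)
    have hzN : j (z0 ^ n) ∈ N := (hNz _).2 (mem_zpowers _)
    -- the power of `p`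
    have hpM : p ^ M.index ∈ M := M.pow_index_mem p
    have hlp : Multiplicative.toAdd (lam ⟨(p ^ M.index)⁻¹, inv_mem hpM⟩) = -(M.index : ℤ) := by
      have h1 : Subgroup.inclusion hMU ⟨(p ^ M.index)⁻¹, inv_mem hpM⟩ =
          (⟨p, hpK⟩ : K) ^ (-(M.index : ℤ)) := by
        apply Subtype.ext
        show (p ^ M.index)⁻¹ = p ^ (-(M.index : ℤ))
        rw [zpow_neg, zpow_natCast]
      show Multiplicative.toAdd (lam0 (Subgroup.inclusion hMU _)) = _
      rw [h1, map_zpow, hlam0, toAdd_zpow]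
      show -(M.index : ℤ) * 1 = _
      ring
    have hidx : (M.index : ℤ) ≠ 0 := by exact_mod_cast hMf.index_ne_zero
    have hfinish : ∀ (w : P → ℤ) (w' : Q → ℤ)
      (hw : ∀ (x : P) (y : Q) (hx : x⁻¹ * i (z0 ^ n) * x ∈ M) (hy : y⁻¹ * j (z0 ^ n) * y ∈ N),
        w' y * Multiplicative.toAdd (lam ⟨_, hx⟩) = w x * Multiplicative.toAdd (mu ⟨_, hy⟩))
      (hw' : ∀ y, dc j N y = dc j N 1 → w' y ≠ 0), IsVirtualRetract (zpowers (aL i j p)) := by
      intro w w' hw hw'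
      obtain ⟨H, hHf, h, y0, hy0, hh, -⟩ :=
        ell_gen i j M N hM hN hMf hNf (z0 ^ n) hMz hNz lam mu w w' hw
      obtain ⟨haH, ha⟩ := hh _ hpM
      have h1 : (aL i j p) ^ (M.index : ℤ) = aL i j (p ^ M.index) := by
        rw [zpow_natCast, map_pow]
      have haH' : (aL i j p) ^ (M.index : ℤ) ∈ H := by rw [h1]; exact haH
      refine vr_of_hom (aL i j p) H hHf h (M.index : ℤ) haH' ?_
      have h2 : (⟨_, haH'⟩ : H) = ⟨_, haH⟩ := Subtype.ext h1
      rw [h2, ha]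
      intro h3
      have h4 : Multiplicative.toAdd (lam ⟨(p ^ M.index)⁻¹, inv_mem hpM⟩ ^ w' y0) = 0 := by
        rw [h3]; rfl
      rw [toAdd_zpow, hlp, smul_eq_mul] at h4
      rcases mul_eq_zero.1 h4 with h5 | h5
      · exact hw' y0 hy0 h5
      · exact hidx (by omega)
    rcases hcase with ⟨hn0, hinf⟩ | hz1
    · classical
      obtain ⟨hzV, hmu1⟩ := hmu0 hinf
      have hmuz : Multiplicative.toAdd (mu ⟨_, hzN⟩) = n := by
        have h1 : Subgroup.inclusion hNV ⟨_, hzN⟩ = (⟨j z0, hzV⟩ : V) ^ n := by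
          apply Subtype.ext
          show j (z0 ^ n) = (j z0) ^ n
          rw [map_zpow]
        show Multiplicative.toAdd (mu0 (Subgroup.inclusion hNV _)) = _
        rw [h1, map_zpow, hmu1, toAdd_zpow]
        show n * 1 = n
        ring
      refine hfinish (fun x => if hx : x⁻¹ * i (z0 ^ n) * x ∈ M then
          Multiplicative.toAdd (lam ⟨_, hx⟩) else 0)
        (fun y => if hy : y⁻¹ * j (z0 ^ n) * y ∈ N then
          Multiplicative.toAdd (mu ⟨_, hy⟩) else 0) ?_ ?_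
      · intro x y hx hy
        rw [dif_pos hx, dif_pos hy, mul_comm]
      · intro y hy
        have hyN : y⁻¹ * j (z0 ^ n) * y ∈ N := by
          have := hN.conj_mem _ hzN y⁻¹
          rwa [inv_inv] at this
        rw [dif_pos hyN]
        obtain ⟨r, m, hm, hrm⟩ := (dc_eq j N _ _).1 hy
        -- `1 = j r * y * m`
        have hy1 : y = (j r)⁻¹ * m⁻¹ := by
          have h1 : (j r)⁻¹ * (j r * y * m) * m⁻¹ = y := by group
          rw [← h1, ← hrm, mul_one]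
        have h2 : y⁻¹ * j (z0 ^ n) * y = m * j (r * z0 ^ n * r⁻¹) * m⁻¹ := by
          rw [hy1, map_mul, map_mul, map_inv]; group
        have h3 : j (r * z0 ^ n * r⁻¹) ∈ N := by
          rw [map_mul, map_mul, map_inv]
          exact hN.conj_mem _ hzN _
        obtain ⟨k, hk⟩ := (hNz _).1 h3
        have hk' : (z0 ^ n) ^ k = r * z0 ^ n * r⁻¹ := hk
        have hk0 : k ≠ 0 := by
          rintro rfl
          rw [zpow_zero] at hk'
          have h4 : z0 ^ n = 1 := by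
            have h5 : r⁻¹ * (r * z0 ^ n * r⁻¹) * r = z0 ^ n := by group
            rw [← h5, ← hk']; group
          exact hn0 (hinf _ h4)
        have h5 : (⟨y⁻¹ * j (z0 ^ n) * y, hyN⟩ : N) =
            ⟨m, hm⟩ * ⟨_, hzN⟩ ^ k * ⟨m, hm⟩⁻¹ := by
          apply Subtype.ext
          show y⁻¹ * j (z0 ^ n) * y = m * (j (z0 ^ n)) ^ k * m⁻¹
          rw [h2, ← hk', map_zpow]
        have h6 : mu ⟨y⁻¹ * j (z0 ^ n) * y, hyN⟩ = mu ⟨_, hzN⟩ ^ k := by
          rw [h5, map_mul mu, map_mul mu, map_inv mu, map_zpow mu]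
          rw [mul_comm (mu ⟨m, hm⟩), mul_inv_cancel_right]
        rw [h6, toAdd_zpow, hmuz, smul_eq_mul]
        exact mul_ne_zero hk0 hn0
    · refine hfinish (fun _ => 0) (fun _ => 1) ?_ (fun _ _ => one_ne_zero)
      intro x y hx hy
      have h1 : (⟨_, hx⟩ : M) = 1 := by
        apply Subtype.ext
        show x⁻¹ * i (z0 ^ n) * x = 1
        rw [hz1, map_one, mul_one, inv_mul_cancel]
      rw [h1, map_one]
      show (1 : ℤ) * 0 = 0 * _
      ring
  · push Not at hp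
    obtain ⟨k, hk, hk0⟩ := hp
    have hfo : IsOfFinOrder p := isOfFinOrder_iff_zpow_eq_one.2 ⟨k, hk0, hk⟩
    obtain ⟨U, hU, hUp⟩ := rf_fin hP p hfo
    obtain ⟨M, N, n, hM, hMf, hMU, hN, hNf, hNV, hMz, hNz, -⟩ :=
      pair i j hP hQ hi hj z0 hz0 U hU ⊤ inferInstance
    obtain ⟨H, hHf, h, y0, hy0, -, hh⟩ :=
      ell_gen i j M N hM hN hMf hNf (z0 ^ n) hMz hNz 1 1 (fun _ => 0) (fun _ => 0) (by
        intro x y hx hy
        rw [zero_mul, zero_mul])
    refine vr_of_disjoint _ H hHf ?_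
    intro m hm
    rw [← map_zpow] at hm ⊢
    rw [hUp m (hMU (hh _ hm)), map_one]

/-- exchanging the factors -/
theorem swap : ∃ e : Am j i ≃* Am i j, (∀ q, e (aL j i q) = aR i j q) ∧
    ∀ p, e (aR j i p) = aL i j p := by
  obtain ⟨f, hfL, hfR⟩ := am_lift j i (aR i j) (aL i j) fun r => (aL_aR i j r).symm
  obtain ⟨g, hgL, hgR⟩ := am_lift i j (aR j i) (aL j i) fun r => (aL_aR j i r).symm
  have h1 : ∀ x, g (f x) = x := by
    intro x
    induction x using am_induction with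
    | hL p => rw [hfL, hgR]
    | hR q => rw [hfR, hgL]
    | hm a b ha hb => rw [map_mul, map_mul, ha, hb]
  have h2 : ∀ x, f (g x) = x := by
    intro x
    induction x using am_induction with
    | hL p => rw [hgL, hfR]
    | hR q => rw [hgR, hfL]
    | hm a b ha hb => rw [map_mul, map_mul, ha, hb]
  exact ⟨{ f with invFun := g, left_inv := h1, right_inv := h2 }, hfL, hfR⟩

theorem ell_Q (hP : VRC P) (hQ : VRC Q) (hi : Function.Injective i) (hj : Function.Injective j)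
    (hR : VirtuallyCyclic R) (q : Q) : IsVirtualRetract (zpowers (aR i j q)) := by
  obtain ⟨e, he, -⟩ := swap i j
  have h1 := vr_map e _ (ell_P j i hQ hP hj hi hR q)
  rw [MonoidHom.map_zpowers] at h1
  have h2 : e.toMonoidHom (aL j i q) = aR i j q := he q
  rwa [h2] at h1

end

end Pool.Agent.X176.VR
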