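import Pool.Agent.X176.VR.Basic

/-!
Actions of an amalgamated product on sets with a commuting action of the integers.
-/

set_option autoImplicit false

namespace Pool.Agent.X176.VR

open Subgroup

section am

variable {P Q R : Type*} [Group P] [Group Q] [Group R] (i : R →* P) (j : R →* Q)

/-- the pushout -/
abbrev Am : Type _ :=
  Monoid.Coprod P Q ⧸ Subgroup.normalClosure
    (Set.range fun r : R => Monoid.Coprod.inl (i r) * (Monoid.Coprod.inr (j r))⁻¹)

/-- the first factor -/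
def aL : P →* Am i j := (QuotientGroup.mk' _).comp Monoid.Coprod.inl

/-- the second factor -/
def aR : Q →* Am i j := (QuotientGroup.mk' _).comp Monoid.Coprod.inr

theorem aL_aR (r : R) : aL i j (i r) = aR i j (j r) := by
  have h1 : ((Monoid.Coprod.inl (i r) * (Monoid.Coprod.inr (j r))⁻¹ : Monoid.Coprod P Q) :
      Am i j) = 1 := by
    rw [QuotientGroup.eq_one_iff]
    exact Subgroup.subset_normalClosure ⟨r, rfl⟩
  rw [QuotientGroup.mk_mul, QuotientGroup.mk_inv] at h1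
  exact mul_inv_eq_one.1 h1

theorem am_lift {W : Type*} [Group W] (f : P →* W) (g : Q →* W) (h : ∀ r, f (i r) = g (j r)) :
    ∃ F : Am i j →* W, (∀ p, F (aL i j p) = f p) ∧ ∀ q, F (aR i j q) = g q := by
  refine ⟨QuotientGroup.lift _ (Monoid.Coprod.lift f g) ?_, ?_, ?_⟩
  · intro x hx
    have h1 : Subgroup.normalClosure
      (Set.range fun r : R => Monoid.Coprod.inl (i r) * (Monoid.Coprod.inr (j r))⁻¹) ≤
        (Monoid.Coprod.lift f g).ker := by
      refine Subgroup.normalClosure_le_normal ?_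
      rintro _ ⟨r, rfl⟩
      show Monoid.Coprod.lift f g _ = 1
      rw [map_mul, map_inv, Monoid.Coprod.lift_apply_inl, Monoid.Coprod.lift_apply_inr, h,
        mul_inv_cancel]
    exact h1 hx
  · intro p
    show Monoid.Coprod.lift f g (Monoid.Coprod.inl p) = f p
    exact Monoid.Coprod.lift_apply_inl _ _ _
  · intro q
    show Monoid.Coprod.lift f g (Monoid.Coprod.inr q) = g q
    exact Monoid.Coprod.lift_apply_inr _ _ _

theorem am_induction {C : Am i j → Prop} (x : Am i j) (hL : ∀ p, C (aL i j p))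
    (hR : ∀ q, C (aR i j q)) (hm : ∀ a b, C a → C b → C (a * b)) : C x := by
  obtain ⟨y, rfl⟩ := QuotientGroup.mk_surjective x
  induction y using Monoid.Coprod.induction_on with
  | inl m => exact hL m
  | inr n => exact hR n
  | mul a b ha hb => exact hm _ _ ha hb

end am

section iso

/-- one half of the isomorphism -/
theorem iso1 {H E E' I : Type*} [Group H] (α : H →* Equiv.Perm E) (β : H →* Equiv.Perm E')
    (e : I → E) (e' : I → E') (he : ∀ x, ∃ i h, α h (e i) = x)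
    (hei : ∀ i j h, α h (e i) = e j → i = j)
    (hs : ∀ i h, α h (e i) = e i → β h (e' i) = e' i) :
    ∃ F : E → E', ∀ i h, F (α h (e i)) = β h (e' i) := by
  choose ix hx hix using he
  refine ⟨fun x => β (hx x) (e' (ix x)), ?_⟩
  intro i h
  have h1 := hix (α h (e i))
  have h2 : α (h⁻¹ * hx (α h (e i))) (e (ix (α h (e i)))) = e i := by
    rw [map_mul, Equiv.Perm.mul_apply, h1, ← Equiv.Perm.mul_apply, ← map_mul, inv_mul_cancel,
      map_one]; rfl
  have h3 := hei _ _ _ h2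
  show β (hx (α h (e i))) (e' (ix (α h (e i)))) = _
  rw [h3] at h2 ⊢
  have h4 := hs _ _ h2
  calc β (hx (α h (e i))) (e' i) = β h (β (h⁻¹ * hx (α h (e i))) (e' i)) := by
        rw [← Equiv.Perm.mul_apply, ← map_mul, mul_inv_cancel_left]
    _ = β h (e' i) := by rw [h4]

/-- sets with an action are isomorphic when they have transversals with the same stabilizers -/
theorem iso {H E E' I : Type*} [Group H] (α : H →* Equiv.Perm E) (β : H →* Equiv.Perm E')
    (e : I → E) (e' : I → E') (he : ∀ x, ∃ i h, α h (e i) = x)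
    (hei : ∀ i j h, α h (e i) = e j → i = j)
    (he' : ∀ x, ∃ i h, β h (e' i) = x)
    (hei' : ∀ i j h, β h (e' i) = e' j → i = j)
    (hs : ∀ i h, α h (e i) = e i ↔ β h (e' i) = e' i) :
    ∃ F : E ≃ E', (∀ h x, F (α h x) = β h (F x)) ∧ ∀ i, F (e i) = e' i := by
  obtain ⟨F, hF⟩ := iso1 α β e e' he hei fun i h => (hs i h).1
  obtain ⟨F', hF'⟩ := iso1 β α e' e he' hei' fun i h => (hs i h).2
  refine ⟨⟨F, F', ?_, ?_⟩, ?_, ?_⟩
  · intro x
    obtain ⟨i, h, rfl⟩ := he x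
    rw [hF, hF']
  · intro x
    obtain ⟨i, h, rfl⟩ := he' x
    rw [hF', hF]
  · intro h x
    obtain ⟨i, k, rfl⟩ := he x
    show F _ = β h (F _)
    rw [hF, ← Equiv.Perm.mul_apply, ← map_mul, hF, map_mul, Equiv.Perm.mul_apply]
  · intro i
    show F _ = _
    have h1 := hF i 1
    rw [map_one, map_one] at h1
    exact h1

end iso

section es

variable {P : Type*} [Group P]

/-- the graph of a homomorphism -/
def Gam (N : Subgroup P) (l : N →* Zm) : Subgroup (P × Zm) := (N.subtype.prod l).range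

theorem mem_Gam (N : Subgroup P) (l : N →* Zm) (x : P × Zm) :
    x ∈ Gam N l ↔ ∃ h : x.1 ∈ N, l ⟨x.1, h⟩ = x.2 := by
  constructor
  · rintro ⟨n, rfl⟩
    exact ⟨n.2, rfl⟩
  · rintro ⟨h, h'⟩
    exact ⟨⟨x.1, h⟩, Prod.ext rfl h'⟩

/-- the set with an action of `P` and of the integers -/
abbrev ES (N : Subgroup P) (D : Type*) (l : D → N →* Zm) : Type _ :=
  Σ d : D, (P × Zm) ⧸ Gam N (l d)

variable {N : Subgroup P} {D : Type*} {l : D → N →* Zm}

/-- a point -/
def pt (l : D → N →* Zm) (d : D) (x : P × Zm) : ES N D l := ⟨d, (x : (P × Zm) ⧸ Gam N (l d))⟩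

theorem smul_pt (d : D) (a x : P × Zm) : a • pt l d x = pt l d (a * x) := rfl

theorem pt_eq (d : D) (x y : P × Zm) : pt l d x = pt l d y ↔ x⁻¹ * y ∈ Gam N (l d) := by
  constructor
  · intro h
    have h1 : (⟨d, (x : (P × Zm) ⧸ Gam N (l d))⟩ : ES N D l) = ⟨d, y⟩ := h
    exact QuotientGroup.eq.1 (eq_of_heq (Sigma.mk.inj h1).2)
  · intro h
    show (⟨d, _⟩ : ES N D l) = ⟨d, _⟩
    rw [QuotientGroup.eq.2 h]

theorem exists_pt (x : ES N D l) : ∃ d p k, x = pt l d (p, k) := by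
  obtain ⟨d, q⟩ := x
  obtain ⟨⟨p, k⟩, rfl⟩ := QuotientGroup.mk_surjective q
  exact ⟨d, p, k, rfl⟩

theorem pt_eq' (d d' : D) (x y : P × Zm) (h : pt l d x = pt l d' y) :
    d = d' ∧ x.1⁻¹ * y.1 ∈ N := by
  have h1 : d = d' := congrArg Sigma.fst h
  subst h1
  refine ⟨rfl, ?_⟩
  exact ((mem_Gam _ _ _).1 ((pt_eq d x y).1 h)).1

theorem es_free (x : ES N D l) (c c' : Zm) (h : ((1, c) : P × Zm) • x = ((1, c') : P × Zm) • x) :
    c = c' := by
  obtain ⟨d, p, k, rfl⟩ := exists_pt x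
  rw [smul_pt, smul_pt, pt_eq, mem_Gam] at h
  obtain ⟨h1, h2⟩ := h
  have h3 : (⟨_, h1⟩ : N) = 1 := by
    apply Subtype.ext
    show (1 * p)⁻¹ * (1 * p) = 1
    rw [inv_mul_cancel]
  rw [h3, map_one] at h2
  have h4 : (1 : Zm) = (c * k)⁻¹ * (c' * k) := h2
  have h5 : c * k = c' * k := inv_mul_eq_one.1 h4.symm
  exact mul_right_cancel h5

theorem stab_hom {G : Type*} [Group G] [Finite D] (hN : N.FiniteIndex)
    (Θ : G →* Equiv.Perm (ES N D l))
    (hΘ : ∀ g (c : Zm) x, Θ g (((1, c) : P × Zm) • x) = ((1, c) : P × Zm) • Θ g x)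
    (e0 : ES N D l) :
    ∃ (H : Subgroup G) (_ : H.FiniteIndex) (h : H →* Zm),
      (∀ g (c : Zm), Θ g e0 = ((1, c) : P × Zm) • e0 → ∃ hg : g ∈ H, h ⟨g, hg⟩ = c) ∧
      ∀ g, g ∈ H → ∃ c : Zm, Θ g e0 = ((1, c) : P × Zm) • e0 := by
  have hmm : ∀ (c c' : Zm) (x : ES N D l), ((1, c) : P × Zm) • (((1, c') : P × Zm) • x) =
      ((1, c * c') : P × Zm) • x := by
    intro c c' x
    rw [smul_smul]
    congr 1
    exact Prod.ext (one_mul 1) rfl
  have hoo : ∀ x : ES N D l, ((1, (1 : Zm)) : P × Zm) • x = x := fun x => one_smul _ x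
  let H : Subgroup G :=
    { carrier := {g | ∃ c : Zm, Θ g e0 = ((1, c) : P × Zm) • e0}
      one_mem' := ⟨1, by rw [map_one, hoo]; rfl⟩
      mul_mem' := by
        rintro a b ⟨c, hc⟩ ⟨c', hc'⟩
        refine ⟨c' * c, ?_⟩
        rw [map_mul, Equiv.Perm.mul_apply, hc', hΘ, hc, hmm]
      inv_mem' := by
        rintro a ⟨c, hc⟩
        refine ⟨c⁻¹, ?_⟩
        have h1 : Θ a⁻¹ (Θ a e0) = e0 := by
          rw [← Equiv.Perm.mul_apply, ← map_mul, inv_mul_cancel, map_one]; rfl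
        rw [hc, hΘ] at h1
        have h2 : ((1, c⁻¹) : P × Zm) • (((1, c) : P × Zm) • Θ a⁻¹ e0) =
            ((1, c⁻¹) : P × Zm) • e0 := by rw [h1]
        rwa [hmm, inv_mul_cancel, hoo] at h2 }
  have hHf : H.FiniteIndex := by
    have hfP : Finite (P ⧸ N) := Subgroup.finite_quotient_of_finiteIndex
    let s : ES N D l → D × (P ⧸ N) := fun x => (x.1, (x.2.out.1 : P ⧸ N))
    have hs : ∀ x y, s x = s y → ∃ c : Zm, ((1, c) : P × Zm) • x = y := by
      rintro ⟨d, q⟩ ⟨d', q'⟩ h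
      obtain rfl : d = d' := congrArg Prod.fst h
      have h1 : (q.out.1 : P ⧸ N) = (q'.out.1 : P ⧸ N) := congrArg Prod.snd h
      rw [QuotientGroup.eq] at h1
      have hq : (⟨d, q⟩ : ES N D l) = pt l d q.out := by
        show _ = (⟨d, _⟩ : ES N D l)
        rw [show ((q.out : P × Zm) : (P × Zm) ⧸ Gam N (l d)) = q from q.out_eq']
      have hq' : (⟨d, q'⟩ : ES N D l) = pt l d q'.out := by
        show _ = (⟨d, _⟩ : ES N D l)
        rw [show ((q'.out : P × Zm) : (P × Zm) ⧸ Gam N (l d)) = q' from q'.out_eq']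
      rw [hq, hq']
      refine ⟨q'.out.2 * (l d ⟨_, h1⟩)⁻¹ * q.out.2⁻¹, ?_⟩
      rw [smul_pt, pt_eq, mem_Gam]
      have h2 : ((((1, q'.out.2 * (l d ⟨_, h1⟩)⁻¹ * q.out.2⁻¹) : P × Zm) * q.out)⁻¹ * q'.out).1 =
          q.out.1⁻¹ * q'.out.1 := by
        show (1 * q.out.1)⁻¹ * q'.out.1 = _
        rw [one_mul]
      have h4 : ((((1, q'.out.2 * (l d ⟨_, h1⟩)⁻¹ * q.out.2⁻¹) : P × Zm) * q.out)⁻¹ * q'.out).1 ∈
          N := by rw [h2]; exact h1
      refine ⟨h4, ?_⟩
      have h3 : (⟨_, h4⟩ : N) = ⟨q.out.1⁻¹ * q'.out.1, h1⟩ := Subtype.ext h2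
      rw [h3]
      show l d ⟨_, h1⟩ = (q'.out.2 * (l d ⟨_, h1⟩)⁻¹ * q.out.2⁻¹ * q.out.2)⁻¹ * q'.out.2
      rw [inv_mul_cancel_right, mul_inv_rev, inv_inv, mul_assoc, inv_mul_cancel, mul_one]
    have hinj : Function.Injective (fun q : G ⧸ H => s (Θ q.out e0)) := by
      intro q q' h
      obtain ⟨c, hc⟩ := hs _ _ h
      rw [← q.out_eq', ← q'.out_eq']
      refine QuotientGroup.eq.2 ?_
      refine ⟨c, ?_⟩
      rw [map_mul, Equiv.Perm.mul_apply, ← hc, ← hΘ, ← Equiv.Perm.mul_apply, ← map_mul,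
        inv_mul_cancel, map_one]
      rfl
    have : Finite (G ⧸ H) := Finite.of_injective _ hinj
    exact finiteIndex_of_finite_quotient
  have hH : ∀ g : H, ∃ c : Zm, Θ g e0 = ((1, c) : P × Zm) • e0 := fun g => g.2
  choose h hh using hH
  refine ⟨H, hHf, MonoidHom.mk' h ?_, ?_, fun g hg => hg⟩
  · intro a b
    apply es_free e0
    rw [← hh, mul_comm, ← hmm, ← hh, ← hΘ, ← hh, ← Equiv.Perm.mul_apply, ← map_mul]
    rfl
  · intro g c hg
    refine ⟨⟨c, hg⟩, ?_⟩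
    apply es_free e0
    show ((1, h ⟨g, ⟨c, hg⟩⟩) : P × Zm) • e0 = _
    rw [← hh]
    exact hg

end es

end Pool.Agent.X176.VR
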