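import Pool.Agent.X176.VR.Act
import Pool.Agent.X176.VR.Sep

/-!
Hyperbolic elements.
-/

set_option autoImplicit false

namespace Pool.Agent.X176.VR

open Subgroup

theorem exists_equiv_ext {J A B : Type*} [Finite A] (e0 : A ≃ B) (u : J → A) (v : J → B)
    (hu : Function.Injective u) (hv : Function.Injective v) :
    ∃ τ : A ≃ B, ∀ x, τ (u x) = v x := by
  classical
  have hv' : Function.Injective (fun x => e0.symm (v x)) := e0.symm.injective.comp hv
  let e : {a // a ∈ Set.range u} ≃ {a // a ∈ Set.range (fun x => e0.symm (v x))} :=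
    (Equiv.ofInjective u hu).symm.trans (Equiv.ofInjective _ hv')
  refine ⟨e.extendSubtype.trans e0, ?_⟩
  intro x
  have h1 : e.extendSubtype (u x) = e ⟨u x, ⟨x, rfl⟩⟩ :=
    e.extendSubtype_apply_of_mem (u x) ⟨x, rfl⟩
  show e0 (e.extendSubtype (u x)) = v x
  rw [h1]
  have h2 : (Equiv.ofInjective u hu).symm ⟨u x, ⟨x, rfl⟩⟩ = x := by
    rw [Equiv.symm_apply_eq]; rfl
  show e0 ((Equiv.ofInjective _ hv') ((Equiv.ofInjective u hu).symm ⟨u x, ⟨x, rfl⟩⟩) :) = v x
  rw [h2]
  show e0 (e0.symm (v x)) = v x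
  rw [e0.apply_symm_apply]

section

variable {P Q R : Type*} [Group P] [Group Q] [Group R] (i : R →* P) (j : R →* Q)
  (M : Subgroup P) (N : Subgroup Q)

theorem dc_ne (hM : M.Normal) (p : P) (hp : ∀ r, p * i r ∉ M) : dc i M p ≠ dc i M 1 := by
  intro h
  obtain ⟨r, n, hn, h1⟩ := (dc_eq i M _ _).1 h
  apply hp r
  have h2 : p * i r = (i r)⁻¹ * (i r * p * n * n⁻¹) * i r := by group
  rw [h2, ← h1, one_mul]
  have := hM.conj_mem _ (inv_mem hn) (i r)⁻¹
  rwa [inv_inv] at this

theorem hyp_gen (hM : M.Normal) (hN : N.Normal) (hMf : M.FiniteIndex) (hNf : N.FiniteIndex)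
    (hMN : ∀ r, i r ∈ M ↔ j r ∈ N) (n : ℕ) (p : ZMod (n + 1) → P) (q : ZMod (n + 1) → Q)
    (hp : ∀ k r, p k * i r ∉ M) (hq : ∀ k r, q k * j r ∉ N) :
    ∃ (H : Subgroup (Am i j)) (_ : H.FiniteIndex) (h : H →* Zm)
      (hw : ((List.range (n + 1)).map (fun t : ℕ => aL i j (p (t : ZMod (n + 1))) *
        aR i j (q (t : ZMod (n + 1))))).prod ∈ H), h ⟨_, hw⟩ ≠ 1 := by
  classical
  have hfP : Finite (DC i M) := dc_finite i M hMf
  have hfQ : Finite (DC j N) := dc_finite j N hNf
  let l : DC j N × ZMod (n + 1) → M →* Zm := fun _ => 1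
  let l' : DC i M × ZMod (n + 1) → N →* Zm := fun _ => 1
  let a0 : DC i M := dc i M 1
  let b0 : DC j N := dc j N 1
  let u : ZMod (n + 1) ⊕ ZMod (n + 1) → DC i M × (DC j N × ZMod (n + 1)) :=
    Sum.elim (fun k => (a0, (b0, k))) (fun k => (dc i M (p k), (b0, k)))
  let v : ZMod (n + 1) ⊕ ZMod (n + 1) → DC j N × (DC i M × ZMod (n + 1)) :=
    Sum.elim (fun k => (dc j N (q k), (a0, k))) (fun k => (b0, (a0, k - 1)))
  have hu : Function.Injective u := by
    rintro (k | k) (k' | k') h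
    · have h1 : k = k' := congrArg (fun x => x.2.2) h
      rw [h1]
    · exact absurd (congrArg (fun x => x.1) h).symm (dc_ne i M hM (p k') (hp k'))
    · exact absurd (congrArg (fun x => x.1) h) (dc_ne i M hM (p k) (hp k))
    · have h1 : k = k' := congrArg (fun x => x.2.2) h
      rw [h1]
  have hv : Function.Injective v := by
    rintro (k | k) (k' | k') h
    · have h1 : k = k' := congrArg (fun x => x.2.2) h
      rw [h1]
    · exact absurd (congrArg (fun x => x.1) h) (dc_ne j N hN (q k) (hq k))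
    · exact absurd (congrArg (fun x => x.1) h).symm (dc_ne j N hN (q k') (hq k'))
    · have h1 : k - 1 = k' - 1 := congrArg (fun x => x.2.2) h
      rw [sub_left_injective h1]
  let e0 : DC i M × (DC j N × ZMod (n + 1)) ≃ DC j N × (DC i M × ZMod (n + 1)) :=
    { toFun := fun x => (x.2.1, (x.1, x.2.2))
      invFun := fun x => (x.2.1, (x.1, x.2.2))
      left_inv := fun x => rfl
      right_inv := fun x => rfl }
  obtain ⟨τ, hτ⟩ := exists_equiv_ext e0 u v hu hv
  let t : DC i M × (DC j N × ZMod (n + 1)) → P :=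
    Function.extend u (Sum.elim (fun _ => 1) p) (fun a => a.1.out)
  let t' : DC i M × (DC j N × ZMod (n + 1)) → Q :=
    Function.extend u (Sum.elim q (fun _ => 1)) (fun a => (τ a).1.out)
  let κ' : DC i M × (DC j N × ZMod (n + 1)) → Zm :=
    Function.extend u (Sum.elim (fun _ => 1)
      (fun k => if k = 0 then Multiplicative.ofAdd 1 else 1)) (fun _ => 1)
  have ht : ∀ a, dc i M (t a) = a.1 := by
    intro a
    by_cases ha : ∃ x, u x = a
    · obtain ⟨x, rfl⟩ := ha
      have h1 : t (u x) = Sum.elim (fun _ => 1) p x := hu.extend_apply _ _ _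
      rw [h1]
      rcases x with k | k <;> rfl
    · have h1 : t a = a.1.out := Function.extend_apply' _ _ _ ha
      rw [h1]
      exact dc_out i M _
  have ht' : ∀ a, dc j N (t' a) = (τ a).1 := by
    intro a
    by_cases ha : ∃ x, u x = a
    · obtain ⟨x, rfl⟩ := ha
      have h1 : t' (u x) = Sum.elim q (fun _ => 1) x := hu.extend_apply _ _ _
      rw [h1, hτ]
      rcases x with k | k <;> rfl
    · have h1 : t' a = (τ a).1.out := Function.extend_apply' _ _ _ ha
      rw [h1]
      exact dc_out j N _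
  have hcM : ∀ (x : P) (r : R), x⁻¹ * i r * x ∈ M ↔ i r ∈ M := by
    intro x r
    constructor
    · intro h
      have := hM.conj_mem _ h x
      have h2 : x * (x⁻¹ * i r * x) * x⁻¹ = i r := by group
      rwa [h2] at this
    · intro h
      have := hM.conj_mem _ h x⁻¹
      rwa [inv_inv] at this
  have hcN : ∀ (x : Q) (r : R), x⁻¹ * j r * x ∈ N ↔ j r ∈ N := by
    intro x r
    constructor
    · intro h
      have := hN.conj_mem _ h x
      have h2 : x * (x⁻¹ * j r * x) * x⁻¹ = j r := by group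
      rwa [h2] at this
    · intro h
      have := hN.conj_mem _ h x⁻¹
      rwa [inv_inv] at this
  obtain ⟨Θ, F, hL, hR, hΘ, hFc, hFe⟩ := exists_act i j M N l l'
    (Equiv.refl (DC i M × (DC j N × ZMod (n + 1)))) t (fun _ => 1) ht τ t' κ' ht' (by
      intro a r c
      rw [mem_Gam, mem_Gam]
      show (∃ _ : (t a)⁻¹ * i r * t a ∈ M, (1 : Zm) = c) ↔
        ∃ _ : (t' a)⁻¹ * j r * t' a ∈ N, (1 : Zm) = c
      constructor
      · rintro ⟨h1, h2⟩
        exact ⟨(hcN _ _).2 ((hMN r).1 ((hcM _ _).1 h1)), h2⟩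
      · rintro ⟨h1, h2⟩
        exact ⟨(hcM _ _).2 ((hMN r).2 ((hcN _ _).1 h1)), h2⟩)
  -- the two kinds of gluing
  have hF1 : ∀ k, F (pt l (b0, k) (1, 1)) = pt l' (a0, k) (q k, 1) := by
    intro k
    have h1 := hFe (u (Sum.inl k))
    have h2 : t (u (Sum.inl k)) = 1 := hu.extend_apply _ _ (Sum.inl k)
    have h3 : t' (u (Sum.inl k)) = q k := hu.extend_apply _ _ (Sum.inl k)
    have h4 : κ' (u (Sum.inl k)) = 1 := hu.extend_apply _ _ (Sum.inl k)
    rw [h2, h3, h4, hτ] at h1
    exact h1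
  have hF2 : ∀ k, F (pt l (b0, k) (p k, 1)) =
      pt l' (a0, k - 1) (1, if k = 0 then Multiplicative.ofAdd 1 else 1) := by
    intro k
    have h1 := hFe (u (Sum.inr k))
    have h2 : t (u (Sum.inr k)) = p k := hu.extend_apply _ _ (Sum.inr k)
    have h3 : t' (u (Sum.inr k)) = 1 := hu.extend_apply _ _ (Sum.inr k)
    have h4 : κ' (u (Sum.inr k)) = if k = 0 then Multiplicative.ofAdd 1 else 1 :=
      hu.extend_apply _ _ (Sum.inr k)
    rw [h2, h3, h4, hτ] at h1
    exact h1
  let y : ZMod (n + 1) → ES M (DC j N × ZMod (n + 1)) l := fun k => F.symm (pt l' (a0, k) (1, 1))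
  have hFy : ∀ k, F (y k) = pt l' (a0, k) (1, 1) := fun k => F.apply_symm_apply _
  have hstep1 : ∀ k, Θ (aR i j (q k)) (y k) = pt l (b0, k) (1, 1) := by
    intro k
    apply F.injective
    rw [hR, hFy, hF1, smul_pt]
    congr 1
    exact Prod.ext (mul_one _) (mul_one _)
  have hstep : ∀ k, Θ (aL i j (p k) * aR i j (q k)) (y k) =
      ((1, if k = 0 then Multiplicative.ofAdd 1 else 1) : P × Zm) • y (k - 1) := by
    intro k
    rw [map_mul, Equiv.Perm.mul_apply, hstep1, hL, smul_pt]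
    apply F.injective
    rw [hFc, hFy, smul_pt]
    have h1 : ((p k, 1) : P × Zm) * (1, 1) = (p k, 1) := Prod.ext (mul_one _) (mul_one _)
    rw [h1, hF2]
    congr 1
    exact Prod.ext (mul_one _).symm (mul_one _).symm
  obtain ⟨H, hHf, h, hh, -⟩ := stab_hom hMf Θ hΘ (y (n : ZMod (n + 1)))
  have hind : ∀ k : ℕ, k ≤ n → Θ (((List.range (k + 1)).map (fun t : ℕ =>
      aL i j (p (t : ZMod (n + 1))) * aR i j (q (t : ZMod (n + 1))))).prod) (y (k : ZMod (n + 1))) =
        ((1, Multiplicative.ofAdd 1) : P × Zm) • y (0 - 1) := by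
    intro k
    induction k with
    | zero =>
      intro _
      have h1 := hstep 0
      rw [if_pos rfl] at h1
      rw [← h1]
      have h2 : (((0 : ℕ)) : ZMod (n + 1)) = 0 := Nat.cast_zero
      show Θ ([aL i j (p ((0 : ℕ) : ZMod (n + 1))) * aR i j (q ((0 : ℕ) : ZMod (n + 1)))].prod)
        (y ((0 : ℕ) : ZMod (n + 1))) = _
      rw [List.prod_singleton, h2]
    | succ k ih =>
      intro hk
      rw [List.range_succ, List.map_append, List.prod_append, map_mul, Equiv.Perm.mul_apply]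
      have h1 : (((k + 1 : ℕ) : ZMod (n + 1))) ≠ 0 := by
        intro h2
        have h3 := (ZMod.natCast_eq_zero_iff (k + 1) (n + 1)).1 h2
        have h4 := Nat.le_of_dvd (by omega) h3
        omega
      have h2 := hstep ((k + 1 : ℕ) : ZMod (n + 1))
      rw [if_neg h1] at h2
      have h3 : (((k + 1 : ℕ) : ZMod (n + 1))) - 1 = (k : ZMod (n + 1)) := by
        rw [Nat.cast_succ, add_sub_cancel_right]
      rw [h3] at h2
      have h4 : ((1, (1 : Zm)) : P × Zm) • y (k : ZMod (n + 1)) = y k := one_smul _ _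
      rw [h4] at h2
      rw [List.map_singleton, List.prod_singleton, h2]
      exact ih (by omega)
  have hlast : (0 : ZMod (n + 1)) - 1 = (n : ZMod (n + 1)) := by
    rw [sub_eq_iff_eq_add]
    have h1 : ((n : ZMod (n + 1))) + 1 = ((n + 1 : ℕ) : ZMod (n + 1)) := by push_cast; rfl
    rw [h1]
    exact (ZMod.natCast_self (n + 1)).symm
  have hfin := hind n le_rfl
  rw [hlast] at hfin
  obtain ⟨hw, hw'⟩ := hh _ _ hfin
  refine ⟨H, hHf, h, hw, ?_⟩
  rw [hw']
  intro h1
  have h2 : (1 : ℤ) = 0 := h1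
  exact absurd h2 one_ne_zero

end

end Pool.Agent.X176.VR
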