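import Pool.Agent.X176.VR.Ell
import Pool.Agent.X176.VR.Hyp

/-!
Property (VRC) for amalgamated products over virtually cyclic subgroups.
-/

set_option autoImplicit false

namespace Pool.Agent.X176.VR

open Subgroup

theorem vr_rot {G : Type*} [Group G] (a b : G) (h : IsVirtualRetract (zpowers (a * b))) :
    IsVirtualRetract (zpowers (b * a)) := by
  apply vr_conj (b * a) a
  have h1 : a * (b * a) * a⁻¹ = a * b := by group
  rwa [h1]

section

variable {P Q R : Type*} [Group P] [Group Q] [Group R] (i : R →* P) (j : R →* Q)

/-- the product of a pair -/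
def ev (x : P × Q) : Am i j := aL i j x.1 * aR i j x.2

theorem exists_word (g : Am i j) : ∃ l : List (P × Q), (l.map (ev i j)).prod = g := by
  induction g using am_induction with
  | hL p => exact ⟨[(p, 1)], by simp [ev]⟩
  | hR q => exact ⟨[(1, q)], by simp [ev]⟩
  | hm a b ha hb =>
    obtain ⟨l, rfl⟩ := ha
    obtain ⟨l', rfl⟩ := hb
    exact ⟨l ++ l', by rw [List.map_append, List.prod_append]⟩

theorem vr_word (hP : VRC P) (hQ : VRC Q) (hi : Function.Injective i) (hj : Function.Injective j)
    (hR : VirtuallyCyclic R) (n : ℕ) : ∀ l : List (P × Q), l.length = n →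
      IsVirtualRetract (zpowers ((l.map (ev i j)).prod)) := by
  induction n using Nat.strong_induction_on with
  | _ n ih =>
  intro l hl
  by_cases hred : ∀ x ∈ l, (∀ r, i r ≠ x.1) ∧ ∀ r, j r ≠ x.2
  · rcases l with _ | ⟨x0, l0⟩
    · rw [List.map_nil, List.prod_nil, ← map_one (aL i j)]
      exact ell_P i j hP hQ hi hj hR 1
    · obtain ⟨z0, hz0⟩ := hR
      set l := x0 :: l0 with hldef
      have hlen : l.length = l0.length + 1 := rfl
      have hlt : ∀ k : ZMod (l0.length + 1), k.val < l.length := fun k => ZMod.val_lt k
      let p : ZMod (l0.length + 1) → P := fun k => (l[k.val]'(hlt k)).1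
      let q : ZMod (l0.length + 1) → Q := fun k => (l[k.val]'(hlt k)).2
      obtain ⟨U, hU, hUf, hUp⟩ := closed i hP z0 hz0 p
        (fun k r => (hred _ (List.getElem_mem (hlt k))).1 r)
      obtain ⟨V, hV, hVf, hVq⟩ := closed j hQ z0 hz0 q
        (fun k r => (hred _ (List.getElem_mem (hlt k))).2 r)
      obtain ⟨M, N, m, hM, hMf, hMU, hN, hNf, hNV, hMz, hNz, -⟩ :=
        pair i j hP hQ hi hj z0 hz0 U hUf V hVf
      obtain ⟨H, hHf, h, hw, hne⟩ := hyp_gen i j M N hM hN hMf hNf
        (fun r => (hMz r).trans (hNz r).symm) l0.length p q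
        (fun k r hk => hUp k r (hMU hk)) (fun k r hk => hVq k r (hNV hk))
      have hword : (l.map (ev i j)) = (List.range (l0.length + 1)).map (fun t : ℕ =>
          aL i j (p (t : ZMod (l0.length + 1))) * aR i j (q (t : ZMod (l0.length + 1)))) := by
        apply List.ext_getElem
        · rw [List.length_map, List.length_map, List.length_range, hlen]
        · intro t h1 h2
          rw [List.getElem_map, List.getElem_map, List.getElem_range]
          have h3 : t < l0.length + 1 := by rwa [List.length_map, List.length_range] at h2
          have h4 : ((t : ZMod (l0.length + 1))).val = t := ZMod.val_cast_of_lt h3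
          show aL i j (l[t]).1 * aR i j (l[t]).2 =
            aL i j (l[((t : ZMod (l0.length + 1))).val]'(hlt _)).1 *
              aR i j (l[((t : ZMod (l0.length + 1))).val]'(hlt _)).2
          simp only [h4]
      rw [hword]
      exact vr_of_mem _ H hHf hw h hne
  · push Not at hred
    obtain ⟨x, hx, hx2⟩ := hred
    obtain ⟨s, t, rfl⟩ := List.append_of_mem hx
    rw [List.map_append, List.prod_append]
    apply vr_rot
    rw [List.map_cons, List.prod_cons, mul_assoc, ← List.prod_append, ← List.map_append]
    have hlen : (t ++ s).length + 1 = n := by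
      rw [← hl]
      simp only [List.length_append, List.length_cons]
      omega
    obtain ⟨p, q⟩ := x
    by_cases hxp : ∃ r, i r = p
    · obtain ⟨r, rfl⟩ := hxp
      have h1 : ev i j (i r, q) = aR i j (j r * q) := by
        show aL i j (i r) * aR i j q = _
        rw [aL_aR, map_mul]
      rw [h1]
      rcases (t ++ s).eq_nil_or_concat with h2 | ⟨u, ⟨p', q'⟩, h2⟩
      · rw [h2, List.map_nil, List.prod_nil, mul_one]
        exact ell_Q i j hP hQ hi hj hR _
      · apply vr_rot
        rw [h2, List.map_concat, List.concat_eq_append, List.prod_append, List.prod_singleton,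
          mul_assoc]
        have h3 : ev i j (p', q') * aR i j (j r * q) = ev i j (p', q' * (j r * q)) := by
          show aL i j p' * aR i j q' * _ = aL i j p' * aR i j (q' * (j r * q))
          rw [mul_assoc, ← map_mul]
        rw [h3]
        have h4 := ih (n - 1) (by omega) (u ++ [(p', q' * (j r * q))]) (by
          rw [h2] at hlen
          simp at hlen ⊢
          omega)
        rwa [List.map_append, List.prod_append, List.map_singleton, List.prod_singleton] at h4
    · obtain ⟨r, rfl⟩ : ∃ r, j r = q := by
        by_contra h
        push Not at h hxp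
        obtain ⟨r, hr⟩ := hx2 hxp
        exact h r hr
      have h1 : ev i j (p, j r) = aL i j (p * i r) := by
        show aL i j p * aR i j (j r) = _
        rw [← aL_aR, map_mul]
      rw [h1]
      rcases h2 : t ++ s with _ | ⟨⟨p', q'⟩, u⟩
      · rw [List.map_nil, List.prod_nil, mul_one]
        exact ell_P i j hP hQ hi hj hR _
      · rw [List.map_cons, List.prod_cons, ← mul_assoc]
        have h3 : aL i j (p * i r) * ev i j (p', q') = ev i j (p * i r * p', q') := by
          show aL i j _ * (aL i j p' * aR i j q') = aL i j _ * aR i j q'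
          rw [← mul_assoc, ← map_mul]
        rw [h3]
        have h4 := ih (n - 1) (by omega) ((p * i r * p', q') :: u) (by
          rw [h2] at hlen
          simp at hlen ⊢
          omega)
        rwa [List.map_cons, List.prod_cons] at h4

theorem vrc_am (hP : VRC P) (hQ : VRC Q) (hi : Function.Injective i) (hj : Function.Injective j)
    (hR : VirtuallyCyclic R) : VRC (Am i j) := by
  intro g
  obtain ⟨l, rfl⟩ := exists_word i j g
  exact vr_word i j hP hQ hi hj hR _ l rfl

end

theorem vrc_amalgam {P Q : Type*} [Group P] [Group Q] (R : Subgroup P) (S : Subgroup Q)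
    (φ : R ≃* S) (hR : VirtuallyCyclic R) (hP : VRC P) (hQ : VRC Q) : VRC (Amalgam R S φ) :=
  vrc_am R.subtype (S.subtype.comp φ.toMonoidHom) hP hQ R.subtype_injective
    (S.subtype_injective.comp φ.injective) hR

end Pool.Agent.X176.VR
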